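import Mathlib
import Pool.Agent.H436R3.Fol.Defs

/-!
# Local volumes of klt pairs: definitions

All varieties have the same function field `K`, a finitely generated extension of `ℂ`; a birational
map of two of them is the identity of `K`. A prime divisor over a variety is given by its valuation
`v : DVal K` (`Pool.Agent.H436R3.Fol.Defs`): `v.ord f` is the order of `f` along the divisor,
`v.Reg f` says that `f` lies in the valuation ring, and `IsLocalRing' S v` says that the valuation
ring is the local ring of `Spec S` at a prime divisor.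
-/

set_option autoImplicit false

namespace Run7.h530

open Pool.Agent.H436R3.Fol Filter
open scoped ENNReal

variable {K : Type} [Field K] [Algebra ℂ K] {n : ℕ}

/-- `v` is the order along a prime divisor on some variety with function field `K`. -/
def Divisorial (v : DVal K) : Prop := ∃ S : Subalgebra ℂ K, S.FG ∧ IsLocalRing' S v

/-! ### The canonical divisor -/

/-- A basis `T_1, ..., T_n` of the rational vector fields, `n` is the dimension. It stands for the
rational `n`-form `ω` with `ω (T_1, ..., T_n) = 1`. -/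
structure Frame (K : Type) [Field K] [Algebra ℂ K] (n : ℕ) where
  T : Fin n → Derivation ℂ K K
  indep : LinearIndependent K T
  span : Submodule.span K (Set.range T) = ⊤

/-- `a` is the order of the `n`-form `ω` along the prime divisor `v`, that is, the multiplicity of
`v` in the canonical divisor `div ω`: the least order of `ω (g_1, ..., g_n)` for vector fields
`g_i` which are regular at the generic point of the divisor. -/
def IsCanOrd (ω : Frame K n) (v : DVal K) (a : ℤ) : Prop :=
  IsLeast {m : ℤ | ∃ A : Matrix (Fin n) (Fin n) K, A.det ≠ 0 ∧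
    (∀ i, Preserves v (∑ j, A i j • ω.T j)) ∧ v.ord A.det = m} a

/-! ### Projective varieties -/

/-- The coordinate ring `ℂ [x_0 / x_i, ..., x_N / x_i]` of the affine chart where the `i`-th
homogeneous coordinate does not vanish. -/
def affineChart {N : ℕ} (x : Fin (N + 1) → K) (i : Fin (N + 1)) : Subalgebra ℂ K :=
  Algebra.adjoin ℂ (Set.range fun j => x j / x i)

/-- A normal projective variety over `ℂ` with function field `K`: a closed subvariety of `ℙ^N` which
is contained in no coordinate hyperplane; `x_0, ..., x_N` are the homogeneous coordinates of its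
generic point. -/
structure ProjVar (K : Type) [Field K] [Algebra ℂ K] where
  N : ℕ
  x : Fin (N + 1) → K
  ne : ∀ i, x i ≠ 0
  frac : ∀ i, ∀ f : K, ∃ a b : K, a ∈ affineChart x i ∧ b ∈ affineChart x i ∧ b ≠ 0 ∧ f * b = a
  normal : ∀ i, ∀ f : K, IsIntegral (affineChart x i) f → f ∈ affineChart x i

namespace ProjVar

variable (X : ProjVar K)

/-- The coordinate ring of the `i`-th chart of `X`. -/
abbrev chart (i : Fin (X.N + 1)) : Subalgebra ℂ K := affineChart X.x i

/-- A closed point of the `i`-th chart of `X`. -/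
abbrev Pt (i : Fin (X.N + 1)) : Type := X.chart i →ₐ[ℂ] ℂ

/-- `v` is a prime divisor on `X`. -/
def On (v : DVal K) : Prop := ∃ i, IsLocalRing' (X.chart i) v

/-- The centre of `v` on `X` meets the open subset of the `i`-th chart where `b` does not vanish. -/
def Meets (i : Fin (X.N + 1)) (b : X.chart i) (v : DVal K) : Prop :=
  (∀ f ∈ X.chart i, v.Reg f) ∧ (b : K) ≠ 0 ∧ v.ord (b : K) = 0

/-- The centre of `v` on `X` is the closed point `P`. -/
def Centre {i : Fin (X.N + 1)} (P : X.Pt i) (v : DVal K) : Prop :=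
  (∀ f ∈ X.chart i, v.Reg f) ∧ ∀ f : X.chart i, v.Pos (f : K) ↔ P f = 0

/-- The local ring of `X` at the closed point `P`. -/
def localRing {i : Fin (X.N + 1)} (P : X.Pt i) : Subalgebra ℂ K where
  carrier := {f | ∃ a b : X.chart i, P b ≠ 0 ∧ f * b = a}
  mul_mem' := by
    rintro f g ⟨a, b, hb, hab⟩ ⟨c, d, hd, hcd⟩
    refine ⟨a * c, b * d, by rw [map_mul]; exact mul_ne_zero hb hd, ?_⟩
    push_cast
    rw [← hab, ← hcd]
    ring
  add_mem' := by
    rintro f g ⟨a, b, hb, hab⟩ ⟨c, d, hd, hcd⟩
    refine ⟨a * d + c * b, b * d, by rw [map_mul]; exact mul_ne_zero hb hd, ?_⟩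
    push_cast
    rw [← hab, ← hcd]
    ring
  algebraMap_mem' := fun r => ⟨algebraMap ℂ _ r, 1, by rw [map_one]; exact one_ne_zero, by simp⟩

end ProjVar

/-- A `ℚ`-Cartier `ℚ`-divisor on `X`; `c v` is the multiplicity of the pull-back of the divisor at
the prime divisor `v` over `X`. Near every closed point `P` a positive multiple `r` of the divisor is
principal, `r c = div f`. -/
structure QCartier (X : ProjVar K) where
  c : DVal K → ℚ
  loc : ∀ (i : Fin (X.N + 1)) (P : X.Pt i), ∃ (b : X.chart i) (r : ℕ) (f : K), P b ≠ 0 ∧ 1 ≤ r ∧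
    f ≠ 0 ∧ ∀ v, Divisorial v → X.Meets i b v → (r : ℚ) * c v = v.ord f

/-- A pair `(X, Δ)`: `Δ` is an effective `ℚ`-divisor (`Δ v` is the multiplicity at the prime divisor
`v` on `X`), and `K_X + Δ` is `ℚ`-Cartier; `κ` is its pull-back. Here `K_X = div ω`. -/
structure LogPair (ω : Frame K n) (X : ProjVar K) where
  Δ : DVal K → ℚ
  eff : ∀ v, X.On v → 0 ≤ Δ v
  κ : QCartier X
  eq : ∀ v, X.On v → ∀ a : ℤ, IsCanOrd ω v a → κ.c v = a + Δ v

/-- `A` is the log discrepancy of the prime divisor `v` over `X` with respect to `(X, Δ)`. -/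
def LogPair.IsLogDisc {ω : Frame K n} {X : ProjVar K} (D : LogPair ω X) (v : DVal K) (A : ℚ) :
    Prop :=
  ∃ a : ℤ, IsCanOrd ω v a ∧ A = 1 + a - D.κ.c v

/-! ### Klt pairs -/

/-- A smooth affine variety `U = Spec S` with function field `K` and with étale coordinates
`y_1, ..., y_n`: the differentials `d y_i` are a basis of the module of differentials of `S`. -/
structure SmoothChart (K : Type) [Field K] [Algebra ℂ K] (n : ℕ) where
  S : Subalgebra ℂ K
  fg : S.FG
  frac : ∀ f : K, ∃ a b : K, a ∈ S ∧ b ∈ S ∧ b ≠ 0 ∧ f * b = a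
  y : Fin n → S
  indep : LinearIndependent S fun i => KaehlerDifferential.D ℂ S (y i)
  span : Submodule.span S (Set.range fun i => KaehlerDifferential.D ℂ S (y i)) = ⊤

/-- The function `J` with `d y_1 ∧ ... ∧ d y_n = J ω`. -/
noncomputable def SmoothChart.J (U : SmoothChart K n) (ω : Frame K n) : K :=
  (Matrix.of fun i j => ω.T i (U.y j : K)).det

/-- `(X, Δ)` is klt: it has a log resolution `Y → X` with the following property. `Y` is covered by
finitely many smooth affine charts `U_j` with étale coordinates, each of which maps to an affine chart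
of `X` (and every prime divisor over `X` has its centre on `Y`, as `Y` is proper), such that
`K_Y + Δ_Y`, the pull-back of `K_X + Δ`, satisfies `Δ_Y = ∑ d_i div (y_i)` on `U_j`, where all the
coefficients `d_i` are less than `1`. -/
def LogPair.IsKlt {ω : Frame K n} {X : ProjVar K} (D : LogPair ω X) : Prop :=
  ∃ (m : ℕ) (U : Fin m → SmoothChart K n) (d : Fin m → Fin n → ℚ),
    (∀ v : DVal K, Divisorial v → ∃ j, ∀ f ∈ (U j).S, v.Reg f) ∧
    (∀ j, ∃ i, X.chart i ≤ (U j).S) ∧
    (∀ j i, d j i < 1) ∧
    ∀ j, ∀ v : DVal K, Divisorial v → (∀ f ∈ (U j).S, v.Reg f) →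
      D.κ.c v = ∑ i, d j i * v.ord ((U j).y i : K) - v.ord ((U j).J ω)

/-! ### Volumes -/

/-- The dimension of a complex vector space, in `ℕ ∪ {∞}`. -/
noncomputable def dimC (V : Type) [AddCommGroup V] [Module ℂ V] : ℕ∞ :=
  Cardinal.toENat (Module.rank ℂ V)

/-- The space `H^0 (X, m B)` of the rational functions `f` with `div f + m B ≥ 0`, for a
`ℚ`-divisor `B` on `X`. -/
def ProjVar.sections (X : ProjVar K) (B : DVal K → ℚ) (m : ℕ) : Submodule ℂ K where
  carrier := {f | f = 0 ∨ ∀ v, X.On v → 0 ≤ (v.ord f : ℚ) + m * B v}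
  zero_mem' := Or.inl rfl
  add_mem' := by
    rintro f g hf hg
    by_cases hf0 : f = 0
    · rw [hf0, zero_add]; exact hg
    by_cases hg0 : g = 0
    · rw [hg0, add_zero]; exact hf
    by_cases h0 : f + g = 0
    · exact Or.inl h0
    right
    intro v hv
    have h1 := (hf.resolve_left hf0) v hv
    have h2 := (hg.resolve_left hg0) v hv
    have h3 := v.map_add f g hf0 hg0 h0
    rcases min_le_iff.1 h3 with h | h
    · have : (v.ord f : ℚ) ≤ v.ord (f + g) := by exact_mod_cast h
      linarith
    · have : (v.ord g : ℚ) ≤ v.ord (f + g) := by exact_mod_cast h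
      linarith
  smul_mem' := by
    rintro c f hf
    by_cases hf0 : f = 0
    · left; rw [hf0, smul_zero]
    by_cases hc : c = 0
    · left; rw [hc, zero_smul]
    right
    intro v hv
    have h1 := (hf.resolve_left hf0) v hv
    have h2 : v.ord (c • f) = v.ord f := by
      rw [Algebra.smul_def, v.map_mul _ _ (by simpa using hc) hf0, v.const c hc, zero_add]
    rw [h2]
    exact h1

/-- The volume of the `ℚ`-divisor `B`: the upper limit of `n! h^0 (X, m B) / m ^ n`. -/
noncomputable def ProjVar.vol (X : ProjVar K) (n : ℕ) (B : DVal K → ℚ) : ℝ≥0∞ :=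
  limsup (fun m : ℕ => (n.factorial : ℝ≥0∞) * (dimC (X.sections B m) : ℝ≥0∞) / (m : ℝ≥0∞) ^ n)
    atTop

/-- `B` is big. -/
def ProjVar.IsBig (X : ProjVar K) (n : ℕ) (B : DVal K → ℚ) : Prop := 0 < X.vol n B

/-- The alpha invariant of the `ℚ`-divisor `B`: the infimum of `m lct (X, Δ; G)` over all `m ≥ 1` and
all effective divisors `G = div g + m B`, where `g` is a nonzero section of `m B` and
`lct (X, Δ; G)` is the infimum of `A (v) / v (G)` over the prime divisors `v` over `X`. -/
noncomputable def alpha {ω : Frame K n} {X : ProjVar K} (D : LogPair ω X) (B : DVal K → ℚ) : ℝ≥0∞ :=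
  sInf {t : ℝ≥0∞ | ∃ (m : ℕ) (g : K) (v : DVal K) (A : ℚ), 1 ≤ m ∧ g ∈ X.sections B m ∧ g ≠ 0 ∧
    Divisorial v ∧ D.IsLogDisc v A ∧ 0 < v.ord g + m * B v ∧
    t = ENNReal.ofReal (m * A / (v.ord g + m * B v) : ℚ)}

section local_volume

variable {X : ProjVar K} {i : Fin (X.N + 1)} (P : X.Pt i)

/-- The ideal `I` of the local ring at `P` is primary for the maximal ideal: it is a proper ideal
which contains a power of every non-unit. -/
def IsPrimaryAt (I : Ideal (X.localRing P)) : Prop := I ≠ ⊤ ∧ ∀ f, ¬ IsUnit f → ∃ k : ℕ, f ^ k ∈ I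

/-- The Hilbert-Samuel multiplicity of `I`, the limit of `n! dim (O / I ^ k) / k ^ n`. -/
noncomputable def hilbertSamuel (n : ℕ) (I : Ideal (X.localRing P)) : ℝ≥0∞ :=
  limsup (fun k : ℕ => (n.factorial : ℝ≥0∞) * (dimC (X.localRing P ⧸ I ^ k) : ℝ≥0∞) /
    (k : ℝ≥0∞) ^ n) atTop

/-- `l` is the order `v (I)` of the ideal `I` at `v`. -/
def IsIdealOrd (v : DVal K) (I : Ideal (X.localRing P)) (l : ℤ) : Prop :=
  IsLeast {m : ℤ | ∃ f ∈ I, f ≠ 0 ∧ v.ord (f : K) = m} l

/-- The log canonical threshold of the primary ideal `I`: the infimum of `A (v) / v (I)` over the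
prime divisors `v` over `X` with centre `P`, where `A (v)` is the log discrepancy. -/
noncomputable def lct {ω : Frame K n} (D : LogPair ω X) (I : Ideal (X.localRing P)) : ℝ≥0∞ :=
  sInf {t : ℝ≥0∞ | ∃ (v : DVal K) (A : ℚ) (l : ℤ), Divisorial v ∧ X.Centre P v ∧
    D.IsLogDisc v A ∧ IsIdealOrd P v I l ∧ t = ENNReal.ofReal (A / l : ℚ)}

/-- The normalized volume of the pair `(X, Δ)` at the closed point `P`. -/
noncomputable def normalizedVolume {ω : Frame K n} (D : LogPair ω X) : ℝ≥0∞ :=
  ⨅ (I : Ideal (X.localRing P)) (_ : IsPrimaryAt P I), hilbertSamuel P n I * lct P D I ^ n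

end local_volume

/-! ### Nonnegative birational maps -/

/-- The birational map `X ⇢ X'` is `(K_X + Δ)`-nonnegative: its inverse contracts no divisor, `Δ'` is
the push-forward of `Δ`, and the pull-back of `K_X + Δ` minus the pull-back of `K_X' + Δ'` (to any
common resolution) is effective. -/
structure IsNonneg {ω : Frame K n} {X X' : ProjVar K} (D : LogPair ω X) (D' : LogPair ω X') :
    Prop where
  on : ∀ v, X'.On v → X.On v
  push : ∀ v, X'.On v → D'.Δ v = D.Δ v
  le : ∀ v, Divisorial v → D'.κ.c v ≤ D.κ.c v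

/-- The birational map `X ⇢ X'` is nonnegative for the `ℚ`-Cartier `ℚ`-divisor `N` on `X` with
push-forward `N'`. -/
structure IsNonnegDiv {X X' : ProjVar K} (N : QCartier X) (N' : QCartier X') : Prop where
  push : ∀ v, X'.On v → N'.c v = N.c v
  le : ∀ v, Divisorial v → N'.c v ≤ N.c v

end Run7.h530
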