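import Mathlib
import Pool.Agent.Run7.h530.Defs
import Pool.Agent.H436R3.Fol.LogDer
import Pool.Agent.W497.Mld.Jac

/-!
# Orders and Jacobians
-/

set_option autoImplicit false

namespace Run7.h530

open Pool.Agent.H436R3.Fol Pool.Agent.W497.Mld Matrix

variable {K : Type} [Field K] [Algebra ℂ K] {n : ℕ}

/-- The Jacobian of the functions `w`. -/
noncomputable def jac (ω : Frame K n) (w : Fin n → K) : K :=
  (Matrix.of fun i j => ω.T i (w j)).det

variable {ω : Frame K n} {v : DVal K} {a : ℤ}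

theorem ord_mul {f g : K} (hf : f ≠ 0) (hg : g ≠ 0) : v.ord (f * g) = v.ord f + v.ord g :=
  v.map_mul f g hf hg

/-- The logarithmic Jacobian inequality. -/
theorem canOrd_ge (ha : IsCanOrd ω v a) {w : Fin n → K} (h0 : ∀ k, w k ≠ 0)
    (hJ : jac ω w ≠ 0) : ∑ k, v.ord (w k) ≤ 1 + a + v.ord (jac ω w) := by
  obtain ⟨A, hA0, hA, hn⟩ := ha.1
  have h := gji v ω.T A hA0 hA w h0 hJ
  rw [hn] at h
  unfold jac
  omega

theorem jac_update {w : Fin n → K} {g : K} {c : Fin n → K}
    (hc : ∀ j, ω.T j g = ∑ l, c l * ω.T j (w l)) (i : Fin n) :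
    jac ω (Function.update w i g) = c i * jac ω w := by
  have h1 : (Matrix.of fun j k => ω.T j (Function.update w i g k)) =
      (Matrix.of fun j k => ω.T j (w k)).updateCol i
        ((Matrix.of fun j k => ω.T j (w k)) *ᵥ c) := by
    ext j k
    rw [Matrix.updateCol_apply, Matrix.of_apply]
    by_cases h : k = i
    · subst h
      rw [Function.update_self, if_pos rfl, hc, Matrix.mulVec, dotProduct]
      exact Finset.sum_congr rfl fun l _ => mul_comm _ _
    · rw [Function.update_of_ne h, if_neg h, Matrix.of_apply]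
  unfold jac
  rw [h1, ← Matrix.cramer_apply, Matrix.cramer_eq_adjugate_mulVec, Matrix.mulVec_mulVec,
    Matrix.adjugate_mul, Matrix.smul_mulVec, Matrix.one_mulVec, Pi.smul_apply, smul_eq_mul,
    mul_comm]

theorem jac_ne_zero_imp {w : Fin n → K} (hJ : jac ω w ≠ 0) (k : Fin n) : w k ≠ 0 := by
  intro h
  apply hJ
  unfold jac
  apply Matrix.det_eq_zero_of_column_eq_zero k
  intro i
  rw [Matrix.of_apply, h, map_zero]

/-- The log discrepancy with respect to regular coordinates bounds the orders of the coordinates;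
in particular it is nonnegative. -/
theorem sum_le (ha : IsCanOrd ω v a) {w : Fin n → K} (hJ : jac ω w ≠ 0) :
    ∑ k, v.ord (w k) ≤ 1 + a + v.ord (jac ω w) :=
  canOrd_ge ha (jac_ne_zero_imp hJ) hJ

theorem nonneg_of_reg (ha : IsCanOrd ω v a) {w : Fin n → K} (hw : ∀ k, v.Reg (w k))
    (hJ : jac ω w ≠ 0) : 0 ≤ 1 + a + v.ord (jac ω w) := by
  refine le_trans ?_ (sum_le ha hJ)
  exact Finset.sum_nonneg fun k _ => v.ord_nonneg (jac_ne_zero_imp hJ k) (hw k)

/-- A derivative lowers the order at most by the log discrepancy. -/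
theorem ord_le_derivative (ha : IsCanOrd ω v a) {w : Fin n → K} (hw : ∀ k, v.Reg (w k))
    (hJ : jac ω w ≠ 0) {g : K} {c : Fin n → K}
    (hc : ∀ j, ω.T j g = ∑ l, c l * ω.T j (w l)) {i : Fin n} (hi : c i ≠ 0) :
    v.ord g ≤ v.ord (c i) + (1 + a + v.ord (jac ω w)) := by
  have hJ' : jac ω (Function.update w i g) ≠ 0 := by
    rw [jac_update hc]
    exact mul_ne_zero hi hJ
  have h0 : ∀ k, Function.update w i g k ≠ 0 := jac_ne_zero_imp hJ'
  have h1 := canOrd_ge ha h0 hJ'
  rw [jac_update hc, ord_mul hi hJ] at h1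
  have h2 : v.ord g ≤ ∑ k, v.ord (Function.update w i g k) := by
    rw [← Finset.add_sum_erase _ _ (Finset.mem_univ i), Function.update_self]
    have h3 : 0 ≤ ∑ k ∈ Finset.univ.erase i, v.ord (Function.update w i g k) := by
      refine Finset.sum_nonneg fun k hk => ?_
      rw [Function.update_of_ne (Finset.ne_of_mem_erase hk)]
      exact v.ord_nonneg (jac_ne_zero_imp hJ k) (hw k)
    omega
  omega

end Run7.h530
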