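import Mathlib
import Pool.Agent.Run7.h530.Basic

/-!
# Smooth charts: iterated derivatives of a function generate the unit ideal
-/

set_option autoImplicit false

namespace Run7.h530

open Pool.Agent.H436R3.Fol Matrix

variable {K : Type} [Field K] [Algebra ℂ K] {n : ℕ}

/-- The closed points of an affine variety are the homomorphisms to `ℂ`. -/
theorem exists_point {S : Subalgebra ℂ K} (hfg : S.FG) (M : Ideal S) (hM : M.IsMaximal) :
    ∃ φ : S →ₐ[ℂ] ℂ, ∀ f, φ f = 0 ↔ f ∈ M := by
  have hft : Algebra.FiniteType ℂ S := (Subalgebra.fg_iff_finiteType _).1 hfg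
  let _ : Field (S ⧸ M) := Ideal.Quotient.field M
  have h1 : Algebra.FiniteType ℂ (S ⧸ M) := inferInstance
  have h2 : Module.Finite ℂ (S ⧸ M) := finite_of_finite_type_of_isJacobsonRing ℂ (S ⧸ M)
  have h3 : Function.Bijective (algebraMap ℂ (S ⧸ M)) :=
    IsAlgClosed.algebraMap_bijective_of_isIntegral
  let e : ℂ ≃ₐ[ℂ] (S ⧸ M) := AlgEquiv.ofBijective (Algebra.ofId ℂ (S ⧸ M)) h3
  refine ⟨e.symm.toAlgHom.comp (Ideal.Quotient.mkₐ ℂ M), fun f => ?_⟩
  constructor
  · intro h
    have h4 : e.symm (Ideal.Quotient.mk M f) = 0 := h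
    rw [map_eq_zero_iff _ e.symm.injective] at h4
    exact Ideal.Quotient.eq_zero_iff_mem.1 h4
  · intro h
    change e.symm (Ideal.Quotient.mk M f) = 0
    rw [Ideal.Quotient.eq_zero_iff_mem.2 h, map_zero]

namespace SmoothChart

variable (U : SmoothChart K n)

/-- The basis of the differentials. -/
noncomputable def bas : Module.Basis (Fin n) U.S (KaehlerDifferential ℂ U.S) :=
  Module.Basis.mk U.indep U.span.ge

/-- The partial derivatives. -/
noncomputable def pd (l : Fin n) : Derivation ℂ U.S U.S :=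
  (U.bas.coord l).compDer (KaehlerDifferential.D ℂ U.S)

theorem D_eq (f : U.S) : KaehlerDifferential.D ℂ U.S f =
    ∑ l, U.pd l f • KaehlerDifferential.D ℂ U.S (U.y l) := by
  have h := U.bas.sum_repr (KaehlerDifferential.D ℂ U.S f)
  conv_lhs => rw [← h]
  refine Finset.sum_congr rfl fun l _ => ?_
  rw [bas, Module.Basis.mk_apply]
  rfl

/-- A derivation is determined by its values on the coordinates. -/
theorem der_eq {M : Type} [AddCommGroup M] [Module U.S M] [Module ℂ M] [IsScalarTower ℂ U.S M]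
    (T : Derivation ℂ U.S M) (f : U.S) : T f = ∑ l, U.pd l f • T (U.y l) := by
  have h := Derivation.liftKaehlerDifferential_comp_D T f
  rw [← h, U.D_eq f, map_sum]
  refine Finset.sum_congr rfl fun l _ => ?_
  rw [map_smul, Derivation.liftKaehlerDifferential_comp_D]

theorem derK_eq (T : Derivation ℂ K K) (f : U.S) :
    T (f : K) = ∑ l, (U.pd l f : K) * T (U.y l : K) :=
  U.der_eq (T.compAlgebraMap U.S) f

/-- The Jacobian does not vanish. -/
theorem J_ne_zero (ω : Frame K n) : U.J ω ≠ 0 := by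
  intro h0
  unfold SmoothChart.J at h0
  obtain ⟨c, hc0, hc⟩ := Matrix.exists_vecMul_eq_zero_iff.2 h0
  apply hc0
  have h1 : ∑ j, c j • ω.T j = 0 := by
    have h2 : ∀ l, (∑ j, c j • ω.T j) (U.y l : K) = 0 := by
      intro l
      have h3 := congrFun hc l
      rw [Pool.Agent.W497.Mld.der_sum_apply]
      exact h3
    have h4 : ∀ f : U.S, (∑ j, c j • ω.T j) (f : K) = 0 := by
      intro f
      rw [U.derK_eq]
      exact Finset.sum_eq_zero fun l _ => by rw [h2, mul_zero]
    ext f
    obtain ⟨a, b, ha, hb, hb0, hab⟩ := U.frac f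
    have h5 := h4 ⟨a, ha⟩
    have h6 := h4 ⟨b, hb⟩
    change (∑ j, c j • ω.T j) a = 0 at h5
    change (∑ j, c j • ω.T j) b = 0 at h6
    rw [← hab, Derivation.leibniz, h6, smul_zero, zero_add, smul_eq_mul] at h5
    exact (mul_eq_zero.1 h5).resolve_left hb0
  have h2 := Fintype.linearIndependent_iff.1 ω.indep c h1
  ext j
  exact h2 j

/-- The derivation `f ↦ f - f (P)` to the cotangent space. -/
noncomputable def toCot (M : Ideal U.S) (φ : U.S →ₐ[ℂ] ℂ) (hφ : ∀ f, φ f = 0 ↔ f ∈ M) :
    Derivation ℂ U.S M.Cotangent :=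
  have hm : ∀ f : U.S, f - algebraMap ℂ U.S (φ f) ∈ M := fun f => by
    rw [← hφ, map_sub, AlgHom.commutes]
    exact sub_self _
  Derivation.mk'
    { toFun := fun f => M.toCotangent ⟨f - algebraMap ℂ U.S (φ f), hm f⟩
      map_add' := by
        intro f g
        rw [← map_add]
        congr 1
        ext1
        simp only [map_add, Submodule.coe_add]
        ring
      map_smul' := by
        intro c f
        have h1 : (⟨c • f - algebraMap ℂ U.S (φ (c • f)), hm (c • f)⟩ : M) =
            (algebraMap ℂ U.S c) • ⟨f - algebraMap ℂ U.S (φ f), hm f⟩ := by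
          ext1
          simp only [smul_eq_mul, map_mul, Submodule.coe_smul, Algebra.smul_def,
            AlgHom.commutes, Algebra.algebraMap_self, RingHom.id_apply]
          ring
        rw [h1, map_smul, algebraMap_smul]
        rfl }
    (by
      intro f g
      change M.toCotangent _ = f • M.toCotangent _ + g • M.toCotangent _
      rw [← map_smul, ← map_smul, ← map_add, Ideal.toCotangent_eq]
      have h2 : (f * g - algebraMap ℂ U.S (φ (f * g))) -
          (f * (g - algebraMap ℂ U.S (φ g)) + g * (f - algebraMap ℂ U.S (φ f))) =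
          -((f - algebraMap ℂ U.S (φ f)) * (g - algebraMap ℂ U.S (φ g))) := by
        rw [map_mul, map_mul]
        ring
      change (f * g - algebraMap ℂ U.S (φ (f * g))) -
          (f * (g - algebraMap ℂ U.S (φ g)) + g * (f - algebraMap ℂ U.S (φ f))) ∈ M ^ 2
      rw [h2, pow_two]
      exact neg_mem (Ideal.mul_mem_mul (hm f) (hm g)))

/-- The Euler derivation. -/
noncomputable def eul (φ : U.S →ₐ[ℂ] ℂ) : Derivation ℂ U.S U.S :=
  ∑ l, (U.y l - algebraMap ℂ U.S (φ (U.y l))) • U.pd l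

theorem eul_apply (φ : U.S →ₐ[ℂ] ℂ) (f : U.S) :
    U.eul φ f = ∑ l, (U.y l - algebraMap ℂ U.S (φ (U.y l))) * U.pd l f := by
  unfold eul
  have h : ∀ s : Finset (Fin n), (∑ l ∈ s, (U.y l - algebraMap ℂ U.S (φ (U.y l))) • U.pd l) f =
      ∑ l ∈ s, (U.y l - algebraMap ℂ U.S (φ (U.y l))) * U.pd l f := by
    intro s
    classical
    induction s using Finset.induction_on with
    | empty => simp
    | insert b s hb ih =>
      rw [Finset.sum_insert hb, Finset.sum_insert hb, Derivation.add_apply, ih,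
        Derivation.smul_apply, smul_eq_mul]
  exact h _

theorem eul_sub_mem (M : Ideal U.S) (φ : U.S →ₐ[ℂ] ℂ) (hφ : ∀ f, φ f = 0 ↔ f ∈ M) {f : U.S}
    (hf : f ∈ M) : U.eul φ f - f ∈ M ^ 2 := by
  have h := U.der_eq (U.toCot M φ hφ) f
  have hm : ∀ f : U.S, f - algebraMap ℂ U.S (φ f) ∈ M := fun f => by
    rw [← hφ, map_sub, AlgHom.commutes]
    exact sub_self _
  have h1 : ∀ g : U.S, U.toCot M φ hφ g =
      M.toCotangent ⟨g - algebraMap ℂ U.S (φ g), hm g⟩ := fun g => rfl
  simp only [h1] at h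
  have h2 : ∑ l, U.pd l f • M.toCotangent ⟨U.y l - algebraMap ℂ U.S (φ (U.y l)), hm (U.y l)⟩ =
      M.toCotangent (∑ l, U.pd l f • ⟨U.y l - algebraMap ℂ U.S (φ (U.y l)), hm (U.y l)⟩) := by
    rw [map_sum]
    exact Finset.sum_congr rfl fun l _ => (map_smul _ _ _).symm
  rw [h2, Ideal.toCotangent_eq] at h
  have h3 : U.eul φ f - f = -((f - algebraMap ℂ U.S (φ f)) -
      ((∑ l, U.pd l f • (⟨U.y l - algebraMap ℂ U.S (φ (U.y l)), hm (U.y l)⟩ : M) : M) : U.S)) := by
    rw [U.eul_apply, (hφ f).2 hf, map_zero, sub_zero, neg_sub]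
    congr 1
    rw [AddSubmonoidClass.coe_finsetSum]
    refine Finset.sum_congr rfl fun l _ => ?_
    rw [Submodule.coe_smul, smul_eq_mul, mul_comm]
  rw [h3]
  exact neg_mem h

theorem eul_pow (M : Ideal U.S) (φ : U.S →ₐ[ℂ] ℂ) (hφ : ∀ f, φ f = 0 ↔ f ∈ M) (k : ℕ) :
    ∀ f ∈ M ^ k, U.eul φ f - k * f ∈ M ^ (k + 1) := by
  have hm : ∀ f : U.S, f - algebraMap ℂ U.S (φ f) ∈ M := fun f => by
    rw [← hφ, map_sub, AlgHom.commutes]
    exact sub_self _
  induction k with
  | zero =>
    intro f _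
    rw [Nat.cast_zero, zero_mul, sub_zero, zero_add, pow_one, U.eul_apply]
    exact sum_mem fun l _ => Ideal.mul_mem_right _ _ (hm _)
  | succ k ih =>
    intro f hf
    rw [pow_succ'] at hf
    refine Submodule.mul_induction_on hf ?_ ?_
    · intro a ha b hb
      have h1 : U.eul φ (a * b) - ((k + 1 : ℕ) : U.S) * (a * b) =
          a * (U.eul φ b - k * b) + (U.eul φ a - a) * b := by
        rw [Derivation.leibniz, smul_eq_mul, smul_eq_mul]
        push_cast
        ring
      rw [h1]
      refine add_mem ?_ ?_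
      · rw [pow_succ' M (k + 1)]
        exact Ideal.mul_mem_mul ha (ih b hb)
      · have h2 : M ^ (k + 1 + 1) = M ^ 2 * M ^ k := by rw [← pow_add]; congr 1; omega
        rw [h2]
        exact Ideal.mul_mem_mul (U.eul_sub_mem M φ hφ ha) hb
    · intro a b ha hb
      have h1 : U.eul φ (a + b) - ((k + 1 : ℕ) : U.S) * (a + b) =
          (U.eul φ a - ((k + 1 : ℕ) : U.S) * a) + (U.eul φ b - ((k + 1 : ℕ) : U.S) * b) := by
        rw [map_add]
        ring
      rw [h1]
      exact add_mem ha hb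

/-- An ideal which is stable under the derivatives is trivial. -/
theorem eq_bot_of_stable (I : Ideal U.S) (hI : ∀ l, ∀ f ∈ I, U.pd l f ∈ I) (hne : I ≠ ⊤) :
    I = ⊥ := by
  obtain ⟨M, hM, hIM⟩ := Ideal.exists_le_maximal I hne
  obtain ⟨φ, hφ⟩ := exists_point U.fg M hM
  have hft : Algebra.FiniteType ℂ U.S := (Subalgebra.fg_iff_finiteType _).1 U.fg
  have hnoe : IsNoetherianRing U.S := Algebra.FiniteType.isNoetherianRing ℂ U.S
  have hm : ∀ f : U.S, f - algebraMap ℂ U.S (φ f) ∈ M := fun f => by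
    rw [← hφ, map_sub, AlgHom.commutes]
    exact sub_self _
  have hk : ∀ k : ℕ, I ≤ M ^ (k + 1) := by
    intro k
    induction k with
    | zero => rw [zero_add, pow_one]; exact hIM
    | succ k ih =>
      intro f hf
      have h1 : U.eul φ f ∈ M ^ (k + 1 + 1) := by
        rw [U.eul_apply]
        refine sum_mem fun l _ => ?_
        rw [pow_succ' M (k + 1)]
        exact Ideal.mul_mem_mul (hm _) (ih (hI l f hf))
      have h2 := U.eul_pow M φ hφ (k + 1) f (ih hf)
      have h3 : ((k + 1 : ℕ) : U.S) * f ∈ M ^ (k + 1 + 1) := by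
        have h4 : ((k + 1 : ℕ) : U.S) * f = U.eul φ f - (U.eul φ f - ((k + 1 : ℕ) : U.S) * f) := by
          ring
        rw [h4]
        exact sub_mem h1 h2
      have h5 : f = algebraMap ℂ U.S (((k + 1 : ℕ) : ℂ)⁻¹) * (((k + 1 : ℕ) : U.S) * f) := by
        have h6 : ((k + 1 : ℕ) : U.S) = algebraMap ℂ U.S ((k + 1 : ℕ) : ℂ) := by
          rw [map_natCast]
        rw [h6, ← mul_assoc, ← map_mul, inv_mul_cancel₀, map_one, one_mul]
        exact Nat.cast_ne_zero.2 (Nat.succ_ne_zero k)
      rw [h5]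
      exact Ideal.mul_mem_left _ _ h3
  have hinf : I ≤ ⨅ k : ℕ, M ^ k := by
    refine le_iInf fun k => ?_
    exact (hk k).trans (Ideal.pow_le_pow_right (Nat.le_succ k))
  rw [Ideal.iInf_pow_eq_bot_of_isDomain M hM.ne_top] at hinf
  exact le_bot_iff.1 hinf

/-- The iterated derivatives. -/
def words (p : U.S) : ℕ → Set U.S
  | 0 => {p}
  | m + 1 => {q | ∃ l, ∃ q' ∈ words p m, q = U.pd l q'}

/-- A function on a smooth chart has an order which is bounded by a multiple of the log
discrepancy. -/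
theorem exists_bound (ω : Frame K n) (p : U.S) (hp : p ≠ 0) :
    ∃ k : ℕ, ∀ (v : DVal K) (a : ℤ), (∀ f ∈ U.S, v.Reg f) → IsCanOrd ω v a →
      v.ord (p : K) ≤ k * (1 + a + v.ord (U.J ω)) := by
  set I : Ideal U.S := Ideal.span (⋃ m, U.words p m) with hIdef
  have hst : ∀ l, ∀ f ∈ I, U.pd l f ∈ I := by
    intro l f hf
    refine Submodule.span_induction ?_ ?_ ?_ ?_ hf
    · intro q hq
      obtain ⟨m, hm⟩ := Set.mem_iUnion.1 hq
      exact Ideal.subset_span (Set.mem_iUnion.2 ⟨m + 1, l, q, hm, rfl⟩)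
    · rw [map_zero]; exact I.zero_mem
    · intro x y _ _ hx hy
      rw [map_add]; exact I.add_mem hx hy
    · intro s x hx h
      rw [smul_eq_mul, Derivation.leibniz, smul_eq_mul, smul_eq_mul]
      exact I.add_mem (I.mul_mem_left _ h) (I.mul_mem_right _ hx)
  have hpI : p ∈ I := Ideal.subset_span (Set.mem_iUnion.2 ⟨0, rfl⟩)
  have htop : I = ⊤ := by
    by_contra hne
    have := U.eq_bot_of_stable I hst hne
    rw [this] at hpI
    exact hp hpI
  have h1 : (1 : U.S) ∈ Submodule.span U.S (⋃ m, U.words p m) := by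
    change (1 : U.S) ∈ I
    rw [htop]
    exact Submodule.mem_top
  obtain ⟨F, hF, h1F⟩ := Submodule.mem_span_finite_of_mem_span h1
  have hm : ∀ q : U.S, ∃ m : ℕ, q ∈ F → q ∈ U.words p m := by
    intro q
    by_cases hq : q ∈ F
    · obtain ⟨m, hm⟩ := Set.mem_iUnion.1 (hF hq)
      exact ⟨m, fun _ => hm⟩
    · exact ⟨0, fun h => absurd h hq⟩
  choose m hm using hm
  refine ⟨F.sup m, fun v a hv ha => ?_⟩
  have hreg : ∀ k, v.Reg (U.y k : K) := fun k => hv _ (U.y k).2
  have hJ : jac ω (fun k => (U.y k : K)) ≠ 0 := U.J_ne_zero ω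
  have hA : 0 ≤ 1 + a + v.ord (U.J ω) := nonneg_of_reg ha hreg hJ
  have hchain : ∀ m : ℕ, ∀ q ∈ U.words p m, q ≠ 0 →
      v.ord (p : K) ≤ v.ord (q : K) + m * (1 + a + v.ord (U.J ω)) := by
    intro m
    induction m with
    | zero =>
      rintro q rfl _
      simp
    | succ m ih =>
      rintro _ ⟨l, q', hq', rfl⟩ hne
      have hq0 : q' ≠ 0 := by
        rintro rfl
        exact hne (map_zero _)
      have h2 := ih q' hq' hq0
      have h3 : v.ord (q' : K) ≤ v.ord (U.pd l q' : K) + (1 + a + v.ord (U.J ω)) := by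
        refine ord_le_derivative ha hreg hJ (c := fun l => (U.pd l q' : K))
          (fun j => U.derK_eq _ _) (i := l) ?_
        intro h0
        exact hne (Subtype.ext h0)
      push_cast
      linarith
  have hex : ∃ q ∈ F, q ≠ 0 ∧ v.ord (q : K) = 0 := by
    by_contra hcon
    push Not at hcon
    have hpos : ∀ q ∈ F, v.Pos (q : K) := by
      intro q hq
      by_cases h0 : q = 0
      · left; rw [h0]; rfl
      · right
        have h3 := hcon q hq h0
        have h4 : (q : K) ≠ 0 := fun h => h0 (Subtype.ext h)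
        have h5 := v.ord_nonneg h4 (hv _ q.2)
        omega
    have h6 : v.Pos ((1 : U.S) : K) := by
      refine Submodule.span_induction (p := fun (x : U.S) _ => v.Pos (x : K)) ?_ ?_ ?_ ?_ h1F
      · intro q hq
        exact hpos q hq
      · exact Or.inl rfl
      · intro x y _ _ hx hy
        exact v.pos_add hx hy
      · intro s x _ hx
        exact v.pos_mul_left (hv _ s.2) hx
    rcases h6 with h7 | h7
    · exact one_ne_zero h7
    · have : v.ord ((1 : U.S) : K) = 0 := v.ord_one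
      omega
  obtain ⟨q, hq, hq0, hq1⟩ := hex
  have h8 := hchain (m q) q (hm q hq) hq0
  have h9 : (m q : ℤ) ≤ (F.sup m : ℕ) := by exact_mod_cast Finset.le_sup hq
  have h10 : (m q : ℤ) * (1 + a + v.ord (U.J ω)) ≤
      (F.sup m : ℕ) * (1 + a + v.ord (U.J ω)) := mul_le_mul_of_nonneg_right h9 hA
  rw [hq1, zero_add] at h8
  exact h8.trans h10

end SmoothChart

end Run7.h530
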