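import Mathlib
import Pool.Agent.Run7.h530.Charts

/-!
# Klt pairs: orders are bounded by multiples of the log discrepancy
-/

set_option autoImplicit false

namespace Run7.h530

open Pool.Agent.H436R3.Fol Matrix

variable {K : Type} [Field K] [Algebra ℂ K] {n : ℕ} {ω : Frame K n}

theorem canOrd_add_nonneg {v : DVal K} {a : ℤ} (ha : IsCanOrd ω v a) {w : Fin n → K}
    (hw : ∀ k, v.Reg (w k)) (hJ : jac ω w ≠ 0) : 0 ≤ a + v.ord (jac ω w) := by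
  obtain ⟨A, hA0, hA, hn⟩ := ha.1
  have h1 : (A * Matrix.of fun i j => ω.T i (w j)).det ∈ v.O := by
    apply det_mem
    intro i j
    have h2 : (A * Matrix.of fun i j => ω.T i (w j)) i j = (∑ k, A i k • ω.T k) (w j) := by
      rw [Pool.Agent.W497.Mld.der_sum_apply, Matrix.mul_apply]
      rfl
    rw [h2]
    exact hA i _ (hw j)
  rw [Matrix.det_mul] at h1
  have h3 : 0 ≤ v.ord (A.det * jac ω w) := v.ord_nonneg (mul_ne_zero hA0 hJ) h1
  rw [ord_mul hA0 hJ, hn] at h3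
  exact h3

namespace SmoothChart

variable (U : SmoothChart K n)

theorem exists_bound' (ω : Frame K n) (F : K) (hF : F ≠ 0) :
    ∃ k : ℕ, ∀ (v : DVal K) (a : ℤ), (∀ f ∈ U.S, v.Reg f) → IsCanOrd ω v a →
      v.ord F ≤ k * (1 + a + v.ord (U.J ω)) := by
  obtain ⟨p, q, hp, hq, hq0, hpq⟩ := U.frac F
  have hp0 : p ≠ 0 := by
    rw [← hpq]
    exact mul_ne_zero hF hq0
  obtain ⟨k, hk⟩ := U.exists_bound ω ⟨p, hp⟩ (fun h => hp0 (congrArg Subtype.val h))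
  refine ⟨k, fun v a hv ha => ?_⟩
  have h1 := hk v a hv ha
  have h2 := v.ord_nonneg hq0 (hv q hq)
  have h3 : v.ord p = v.ord F + v.ord q := by rw [← hpq, ord_mul hF hq0]
  change v.ord p ≤ _ at h1
  linarith

end SmoothChart

variable {X : ProjVar K} {D : LogPair ω X}

/-- The comparison on one chart of the log resolution. -/
theorem chart_compare {U : SmoothChart K n} {d : Fin n → ℚ} (hd : ∀ i, d i < 1) :
    ∃ δ : ℚ, 0 < δ ∧ ∀ (v : DVal K) (a : ℤ), (∀ f ∈ U.S, v.Reg f) → IsCanOrd ω v a →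
      D.κ.c v = ∑ i, d i * v.ord (U.y i : K) - v.ord (U.J ω) →
      δ * ((1 + a + v.ord (U.J ω) : ℤ) : ℚ) ≤ 1 + a - D.κ.c v := by
  classical
  obtain ⟨e, he0, he1, he⟩ : ∃ e : ℚ, 0 ≤ e ∧ e < 1 ∧ ∀ i, d i ≤ e := by
    refine ⟨(insert (0 : ℚ) (Finset.univ.image d)).max' ⟨0, Finset.mem_insert_self _ _⟩, ?_, ?_, ?_⟩
    · exact Finset.le_max' _ _ (Finset.mem_insert_self _ _)
    · rw [Finset.max'_lt_iff]
      intro y hy
      rcases Finset.mem_insert.1 hy with rfl | hy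
      · exact one_pos
      · obtain ⟨i, _, rfl⟩ := Finset.mem_image.1 hy
        exact hd i
    · intro i
      exact Finset.le_max' _ _ (Finset.mem_insert_of_mem (Finset.mem_image_of_mem _
        (Finset.mem_univ i)))
  refine ⟨1 - e, by linarith, fun v a hv ha hκ => ?_⟩
  have hreg : ∀ k, v.Reg (U.y k : K) := fun k => hv _ (U.y k).2
  have hJ : jac ω (fun k => (U.y k : K)) ≠ 0 := U.J_ne_zero ω
  have h1 : ∑ k, v.ord (U.y k : K) ≤ 1 + a + v.ord (U.J ω) := sum_le ha hJ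
  have h2 : ∀ k, 0 ≤ v.ord (U.y k : K) := fun k =>
    v.ord_nonneg (jac_ne_zero_imp hJ k) (hreg k)
  have h3 : ∑ i, d i * v.ord (U.y i : K) ≤ e * ∑ i, (v.ord (U.y i : K) : ℚ) := by
    rw [Finset.mul_sum]
    refine Finset.sum_le_sum fun i _ => ?_
    have : (0 : ℚ) ≤ v.ord (U.y i : K) := by exact_mod_cast h2 i
    exact mul_le_mul_of_nonneg_right (he i) this
  have h4 : ∑ i, (v.ord (U.y i : K) : ℚ) ≤ ((1 + a + v.ord (U.J ω) : ℤ) : ℚ) := by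
    exact_mod_cast h1
  have h5 := mul_le_mul_of_nonneg_left h4 he0
  rw [hκ]
  push_cast at h4 h5 ⊢
  linarith

/-- On a klt pair all log discrepancies are positive. -/
theorem klt_pos (h : D.IsKlt) {v : DVal K} (hv : Divisorial v) {A : ℚ} (hA : D.IsLogDisc v A) :
    0 < A := by
  obtain ⟨m, U, d, hcov, -, hd, hκ⟩ := h
  obtain ⟨j, hj⟩ := hcov v hv
  obtain ⟨a, ha, rfl⟩ := hA
  obtain ⟨δ, hδ, hδ'⟩ := chart_compare (D := D) (U := U j) (hd j)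
  have h1 := hδ' v a hj ha (hκ j v hv hj)
  have hJ : jac ω (fun k => ((U j).y k : K)) ≠ 0 := (U j).J_ne_zero ω
  have h2 : 0 ≤ a + v.ord ((U j).J ω) :=
    canOrd_add_nonneg ha (fun k => hj _ ((U j).y k).2) hJ
  have h3 : (1 : ℚ) ≤ ((1 + a + v.ord ((U j).J ω) : ℤ) : ℚ) := by
    have : (1 : ℤ) ≤ 1 + a + v.ord ((U j).J ω) := by omega
    exact_mod_cast this
  nlinarith

/-- The order of a function is bounded by a multiple of the log discrepancy. -/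
theorem klt_bound (h : D.IsKlt) (F : K) (hF : F ≠ 0) : ∃ C : ℚ, 0 ≤ C ∧
    ∀ (v : DVal K) (a : ℤ), Divisorial v → IsCanOrd ω v a →
      (v.ord F : ℚ) ≤ C * (1 + a - D.κ.c v) ∧ 1 + a + (v.ord F : ℚ) ≤ C * (1 + a - D.κ.c v) := by
  have h' := h
  obtain ⟨m, U, d, hcov, -, hd, hκ⟩ := h
  choose δ hδ hδ' using fun j => chart_compare (D := D) (U := U j) (hd j)
  choose k hk using fun j => (U j).exists_bound' ω F hF
  choose l hl using fun j => (U j).exists_bound' ω (F * ((U j).J ω)⁻¹)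
    (mul_ne_zero hF (inv_ne_zero ((U j).J_ne_zero ω)))
  refine ⟨∑ j, ((k j + l j + 1 : ℕ) : ℚ) / δ j,
    Finset.sum_nonneg fun j _ => div_nonneg (Nat.cast_nonneg _) (hδ j).le, fun v a hv ha => ?_⟩
  obtain ⟨j, hj⟩ := hcov v hv
  have hApos : 0 < 1 + (a : ℚ) - D.κ.c v := klt_pos h' hv ⟨a, ha, rfl⟩
  have h1 := hδ' j v a hj ha (hκ j v hv hj)
  have hJ : jac ω (fun k => ((U j).y k : K)) ≠ 0 := (U j).J_ne_zero ω
  have hJ' : (U j).J ω ≠ 0 := (U j).J_ne_zero ω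
  have h0 : 0 ≤ 1 + a + v.ord ((U j).J ω) :=
    nonneg_of_reg ha (fun k => hj _ ((U j).y k).2) hJ
  have h0' : (0 : ℚ) ≤ ((1 + a + v.ord ((U j).J ω) : ℤ) : ℚ) := by exact_mod_cast h0
  have h2 := hk j v a hj ha
  have h3 := hl j v a hj ha
  rw [ord_mul hF (inv_ne_zero hJ'), v.ord_inv hJ'] at h3
  have hsum : ((k j + l j + 1 : ℕ) : ℚ) / δ j ≤ ∑ j, ((k j + l j + 1 : ℕ) : ℚ) / δ j :=
    Finset.single_le_sum (f := fun j => ((k j + l j + 1 : ℕ) : ℚ) / δ j)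
      (fun j _ => div_nonneg (Nat.cast_nonneg _) (hδ j).le) (Finset.mem_univ j)
  have hmain : ((k j + l j + 1 : ℕ) : ℚ) * ((1 + a + v.ord ((U j).J ω) : ℤ) : ℚ) ≤
      (∑ j, ((k j + l j + 1 : ℕ) : ℚ) / δ j) * (1 + a - D.κ.c v) := by
    have h4 : ((1 + a + v.ord ((U j).J ω) : ℤ) : ℚ) ≤ (1 + a - D.κ.c v) / δ j := by
      rw [le_div_iff₀ (hδ j), mul_comm]
      exact h1
    calc ((k j + l j + 1 : ℕ) : ℚ) * ((1 + a + v.ord ((U j).J ω) : ℤ) : ℚ)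
        ≤ ((k j + l j + 1 : ℕ) : ℚ) * ((1 + a - D.κ.c v) / δ j) :=
          mul_le_mul_of_nonneg_left h4 (Nat.cast_nonneg _)
      _ = ((k j + l j + 1 : ℕ) : ℚ) / δ j * (1 + a - D.κ.c v) := by ring
      _ ≤ _ := mul_le_mul_of_nonneg_right hsum hApos.le
  have h5 : ((v.ord F : ℤ) : ℚ) ≤ (k j : ℚ) * ((1 + a + v.ord ((U j).J ω) : ℤ) : ℚ) := by
    exact_mod_cast h2
  have h6 : ((v.ord F + -v.ord ((U j).J ω) : ℤ) : ℚ) ≤
      (l j : ℚ) * ((1 + a + v.ord ((U j).J ω) : ℤ) : ℚ) := by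
    exact_mod_cast h3
  have hk0 : (0 : ℚ) ≤ (k j : ℚ) * ((1 + a + v.ord ((U j).J ω) : ℤ) : ℚ) :=
    mul_nonneg (Nat.cast_nonneg _) h0'
  have hl0 : (0 : ℚ) ≤ (l j : ℚ) * ((1 + a + v.ord ((U j).J ω) : ℤ) : ℚ) :=
    mul_nonneg (Nat.cast_nonneg _) h0'
  push_cast at hmain h5 h6 hk0 hl0 h0' ⊢
  constructor
  · linarith
  · linarith

end Run7.h530
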