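import Mathlib
import Pool.Agent.Run7.h530.Basic
import Pool.Agent.H135R2.VS.Der

/-!
# Transcendence bases and bases of the derivations
-/

set_option autoImplicit false

namespace Run7.h530

open Pool.Agent.H436R3.Fol Matrix

variable {K : Type} [Field K] [Algebra ℂ K] {n : ℕ}

/-- The constants of a derivation. -/
def constants (D : Derivation ℂ K K) : IntermediateField ℂ K where
  carrier := {f | D f = 0}
  mul_mem' := by
    intro f g (hf : D f = 0) (hg : D g = 0)
    change D (f * g) = 0
    rw [Derivation.leibniz, hf, hg, smul_zero, smul_zero, add_zero]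
  add_mem' := by
    intro f g (hf : D f = 0) (hg : D g = 0)
    change D (f + g) = 0
    rw [map_add, hf, hg, add_zero]
  algebraMap_mem' := fun r => D.map_algebraMap r
  inv_mem' := by
    intro f (hf : D f = 0)
    change D f⁻¹ = 0
    rw [Derivation.leibniz_inv, hf, smul_zero]

/-- A derivation which vanishes on a transcendence basis is zero. -/
theorem der_eq_zero {ι : Type} {z : ι → K} (hz : IsTranscendenceBasis ℂ z)
    (D : Derivation ℂ K K) (h : ∀ k, D (z k) = 0) : D = 0 := by
  ext f
  have h1 : IntermediateField.adjoin ℂ (Set.range z) ≤ constants D := by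
    rw [IntermediateField.adjoin_le_iff]
    rintro _ ⟨k, rfl⟩
    exact h k
  have h2 : Algebra.IsAlgebraic (IntermediateField.adjoin ℂ (Set.range z)) K :=
    hz.isAlgebraic_field
  have h3 : Algebra.IsSeparable (IntermediateField.adjoin ℂ (Set.range z)) K := inferInstance
  have h4 : Algebra.FormallyUnramified (IntermediateField.adjoin ℂ (Set.range z)) K :=
    Algebra.FormallyUnramified.of_isSeparable _ K
  let D' : Derivation (IntermediateField.adjoin ℂ (Set.range z)) K K :=
    Derivation.mk'
      { toFun := D
        map_add' := fun x y => map_add D x y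
        map_smul' := by
          intro c x
          have hc : D (c : K) = 0 := h1 c.2
          change D ((c : K) * x) = (c : K) * D x
          rw [Derivation.leibniz, hc, smul_zero, add_zero, smul_eq_mul] }
      (fun x y => D.leibniz x y)
  have h5 : D' f = 0 := by
    have h6 : KaehlerDifferential.D (IntermediateField.adjoin ℂ (Set.range z)) K f = 0 :=
      Subsingleton.elim _ _
    have h7 := Derivation.liftKaehlerDifferential_comp_D D' f
    rw [h6, map_zero] at h7
    exact h7.symm
  exact h5

/-- A transcendence basis has `n` elements, and its Jacobian does not vanish. -/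
theorem card_of_isTranscendenceBasis (ω : Frame K n) {s : ℕ} {z : Fin s → K}
    (hz : IsTranscendenceBasis ℂ z) : s = n := by
  let Φ : (Fin n → K) →ₗ[K] (Fin s → K) :=
    { toFun := fun c k => ∑ j, c j * ω.T j (z k)
      map_add' := by
        intro c d
        ext k
        simp only [Pi.add_apply, add_mul, Finset.sum_add_distrib]
      map_smul' := by
        intro r c
        ext k
        simp only [Pi.smul_apply, smul_eq_mul, RingHom.id_apply, Finset.mul_sum, mul_assoc] }
  have hinj : Function.Injective Φ := by
    rw [injective_iff_map_eq_zero]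
    intro c hc
    have h1 : ∑ j, c j • ω.T j = 0 := by
      apply der_eq_zero hz
      intro k
      have h2 := congrFun hc k
      change ∑ j, c j * ω.T j (z k) = 0 at h2
      rw [Pool.Agent.W497.Mld.der_sum_apply]
      exact h2
    have h2 := Fintype.linearIndependent_iff.1 ω.indep c h1
    ext j
    exact h2 j
  have hsurj : Function.Surjective Φ := by
    intro w
    obtain ⟨D, hD⟩ := Pool.Agent.H135R2.VS.exists_der_basis hz w
    have h1 : D ∈ Submodule.span K (Set.range ω.T) := by
      rw [ω.span]
      exact Submodule.mem_top
    obtain ⟨c, hc⟩ := (Submodule.mem_span_range_iff_exists_fun K).1 h1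
    refine ⟨c, ?_⟩
    ext k
    rw [← hD k, ← hc, Pool.Agent.W497.Mld.der_sum_apply]
    rfl
  have h3 := (LinearEquiv.ofBijective Φ ⟨hinj, hsurj⟩).finrank_eq
  simp at h3
  exact h3.symm

theorem jac_ne_zero (ω : Frame K n) {z : Fin n → K}
    (hz : IsTranscendenceBasis ℂ z) : jac ω z ≠ 0 := by
  intro h0
  unfold jac at h0
  obtain ⟨c, hc0, hc⟩ := Matrix.exists_vecMul_eq_zero_iff.2 h0
  apply hc0
  have h1 : ∑ j, c j • ω.T j = 0 := by
    apply der_eq_zero hz
    intro k
    have h2 := congrFun hc k
    rw [Pool.Agent.W497.Mld.der_sum_apply]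
    exact h2
  have h2 := Fintype.linearIndependent_iff.1 ω.indep c h1
  ext j
  exact h2 j

end Run7.h530
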