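import Mathlib
import Pool.Agent.Run7.h530.Frames

/-!
# Noether normalization
-/

set_option autoImplicit false

namespace Run7.h530

open Pool.Agent.H436R3.Fol Matrix

variable {K : Type} [Field K] [Algebra ℂ K] {n : ℕ}

theorem exists_noether' {S : Subalgebra ℂ K} (hfg : S.FG)
    (hfrac : ∀ f : K, ∃ a b : K, a ∈ S ∧ b ∈ S ∧ b ≠ 0 ∧ f * b = a) :
    ∃ (s : ℕ) (z : Fin s → K), (∀ k, z k ∈ S) ∧ IsTranscendenceBasis ℂ z ∧
      ∀ f ∈ S, IsIntegral (Algebra.adjoin ℂ (Set.range z)) f := by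
  have hft : Algebra.FiniteType ℂ S := (Subalgebra.fg_iff_finiteType _).1 hfg
  obtain ⟨s, g, hg, hint⟩ := exists_integral_inj_algHom_of_fg ℂ S
  let z : Fin s → K := fun k => (g (MvPolynomial.X k) : K)
  have h1 : (MvPolynomial.aeval z : MvPolynomial (Fin s) ℂ →ₐ[ℂ] K) = S.val.comp g := by
    apply MvPolynomial.algHom_ext
    intro k
    simp [z]
  have hind : AlgebraicIndependent ℂ z := by
    rw [algebraicIndependent_iff_injective_aeval, h1]
    exact Subtype.val_injective.comp hg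
  have hmem : ∀ p : MvPolynomial (Fin s) ℂ, (g p : K) ∈ Algebra.adjoin ℂ (Set.range z) := by
    intro p
    have h2 : (g p : K) = MvPolynomial.aeval z p := by rw [h1]; rfl
    rw [h2, Algebra.adjoin_range_eq_range_aeval]
    exact ⟨p, rfl⟩
  have hI : ∀ f ∈ S, IsIntegral (Algebra.adjoin ℂ (Set.range z)) f := by
    intro f hf
    obtain ⟨p, hp, hpf⟩ := hint ⟨f, hf⟩
    let φ : MvPolynomial (Fin s) ℂ →+* Algebra.adjoin ℂ (Set.range z) :=
      ((S.val.comp g).codRestrict (Algebra.adjoin ℂ (Set.range z)) hmem).toRingHom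
    refine ⟨p.map φ, hp.map φ, ?_⟩
    rw [Polynomial.eval₂_map]
    have h3 := congrArg S.val hpf
    rw [map_zero] at h3
    have h4 := Polynomial.hom_eval₂ p g.toRingHom S.val.toRingHom ⟨f, hf⟩
    have h5 : S.val.toRingHom (Polynomial.eval₂ g.toRingHom ⟨f, hf⟩ p) = 0 := h3
    rw [h5] at h4
    exact h4.symm
  refine ⟨s, z, fun k => (g (MvPolynomial.X k)).2, ?_, hI⟩
  rw [isTranscendenceBasis_iff_algebraicIndependent_isAlgebraic]
  refine ⟨hind, ⟨fun f => ?_⟩⟩
  obtain ⟨a, b, ha, hb, hb0, hab⟩ := hfrac f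
  have h6 : f = a * b⁻¹ := by rw [← hab, mul_assoc, mul_inv_cancel₀ hb0, mul_one]
  rw [h6]
  exact (hI a ha).isAlgebraic.mul (hI b hb).isAlgebraic.inv

/-- Noether normalization: a finitely generated subalgebra with fraction field `K` is integral over
a polynomial ring in `n` variables. -/
theorem exists_noether (ω : Frame K n) {S : Subalgebra ℂ K} (hfg : S.FG)
    (hfrac : ∀ f : K, ∃ a b : K, a ∈ S ∧ b ∈ S ∧ b ≠ 0 ∧ f * b = a) :
    ∃ z : Fin n → K, (∀ k, z k ∈ S) ∧ IsTranscendenceBasis ℂ z ∧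
      ∀ f ∈ S, IsIntegral (Algebra.adjoin ℂ (Set.range z)) f := by
  obtain ⟨s, z, h1, h2, h3⟩ := exists_noether' hfg hfrac
  obtain rfl := card_of_isTranscendenceBasis ω h2
  exact ⟨z, h1, h2, h3⟩

/-- The valuation ring of a divisorial valuation is the local ring of a variety with function field
`K`. -/
theorem frac_of_isLocalRing {S : Subalgebra ℂ K} {v : DVal K} (h : IsLocalRing' S v) (f : K) :
    ∃ a b : K, a ∈ S ∧ b ∈ S ∧ b ≠ 0 ∧ f * b = a := by
  by_cases hf : f = 0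
  · exact ⟨0, 1, S.zero_mem, S.one_mem, one_ne_zero, by rw [hf, zero_mul]⟩
  rcases le_total 0 (v.ord f) with h1 | h1
  · obtain ⟨a, b, ha, hb, hb0, _, hab⟩ := h.2 f (Or.inr h1)
    exact ⟨a, b, ha, hb, hb0, hab⟩
  · obtain ⟨a, b, ha, hb, hb0, hb1, hab⟩ := h.2 f⁻¹ (Or.inr (by rw [v.ord_inv hf]; omega))
    have ha0 : a ≠ 0 := by
      rw [← hab]
      exact mul_ne_zero (inv_ne_zero hf) hb0
    refine ⟨b, a, hb, ha, ha0, ?_⟩
    rw [← hab, ← mul_assoc, mul_inv_cancel₀ hf, one_mul]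

/-- The canonical order exists. -/
theorem exists_canOrd (ω : Frame K n) {v : DVal K} (hv : Divisorial v) :
    ∃ a : ℤ, IsCanOrd ω v a := by
  classical
  obtain ⟨S, hfg, hS⟩ := hv
  have hfrac := frac_of_isLocalRing hS
  obtain ⟨z, hzS, hz, _⟩ := exists_noether ω hfg hfrac
  have hJ := jac_ne_zero ω hz
  choose b hb0 hb using fun i => exists_smul_mem hfg hfrac (ω.T i)
  have hne : ∃ m : ℤ, ∃ A : Matrix (Fin n) (Fin n) K, A.det ≠ 0 ∧
      (∀ i, Preserves v (∑ j, A i j • ω.T j)) ∧ v.ord A.det = m := by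
    refine ⟨_, Matrix.diagonal b, ?_, fun i => ?_, rfl⟩
    · rw [Matrix.det_diagonal]
      exact Finset.prod_ne_zero_iff.2 fun i _ => hb0 i
    · have h1 : (∑ j, Matrix.diagonal b i j • ω.T j) = b i • ω.T i := by
        rw [Finset.sum_eq_single i]
        · rw [Matrix.diagonal_apply_eq]
        · intro j _ hj
          rw [Matrix.diagonal_apply_ne _ hj.symm, zero_smul]
        · intro h
          exact absurd (Finset.mem_univ _) h
      rw [h1]
      refine preserves_of v hS fun f hf => ?_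
      rw [Derivation.smul_apply, smul_eq_mul]
      exact hS.1 _ (hb i f hf)
  have hbd : ∀ m : ℤ, (∃ A : Matrix (Fin n) (Fin n) K, A.det ≠ 0 ∧
      (∀ i, Preserves v (∑ j, A i j • ω.T j)) ∧ v.ord A.det = m) → -v.ord (jac ω z) ≤ m := by
    rintro m ⟨A, hA0, hA, rfl⟩
    have h1 : (A * Matrix.of fun i j => ω.T i (z j)).det ∈ v.O := by
      apply det_mem
      intro i j
      have h2 : (A * Matrix.of fun i j => ω.T i (z j)) i j = (∑ k, A i k • ω.T k) (z j) := by
        rw [Pool.Agent.W497.Mld.der_sum_apply, Matrix.mul_apply]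
        rfl
      rw [h2]
      exact hA i _ (hS.1 _ (hzS j))
    rw [Matrix.det_mul] at h1
    have h3 : 0 ≤ v.ord (A.det * jac ω z) := v.ord_nonneg (mul_ne_zero hA0 hJ) h1
    rw [ord_mul hA0 hJ] at h3
    omega
  obtain ⟨a, ha, ha'⟩ := Int.exists_least_of_bdd ⟨_, fun m hm => hbd m hm⟩ hne
  exact ⟨a, ha, fun m hm => ha' m hm⟩

end Run7.h530
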