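import Mathlib
import Pool.Agent.Run7.h530.Klt
import Pool.Agent.Run7.h530.Noether
import Pool.Agent.W497.Mld.Dvr

/-!
# Projective varieties: centres, forms, quasi-compactness
-/

set_option autoImplicit false

namespace Run7.h530

open Pool.Agent.H436R3.Fol

variable {K : Type} [Field K] [Algebra ℂ K] {n : ℕ}

theorem reg_adjoin {v : DVal K} {s : Set K} (hs : ∀ f ∈ s, v.Reg f) :
    ∀ f ∈ Algebra.adjoin ℂ s, v.Reg f := by
  intro f hf
  induction hf using Algebra.adjoin_induction with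
  | mem f hf => exact hs f hf
  | algebraMap c => exact v.reg_const c
  | add f g _ _ hf hg => exact v.reg_add hf hg
  | mul f g _ _ hf hg => exact v.reg_mul hf hg

theorem affineChart_fg {N : ℕ} (x : Fin (N + 1) → K) (i : Fin (N + 1)) : (affineChart x i).FG :=
  Subalgebra.fg_def.2 ⟨_, Set.finite_range _, rfl⟩

namespace ProjVar

variable (X : ProjVar K)

theorem chart_fg (i : Fin (X.N + 1)) : (X.chart i).FG := affineChart_fg _ _

/-- The valuative criterion of properness. -/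
theorem exists_chart (v : DVal K) : ∃ i, ∀ f ∈ X.chart i, v.Reg f := by
  obtain ⟨i, hi⟩ := Finite.exists_min fun j => v.ord (X.x j)
  refine ⟨i, reg_adjoin ?_⟩
  rintro _ ⟨j, rfl⟩
  right
  rw [v.ord_div (X.ne j) (X.ne i)]
  have := hi j
  omega

theorem divisorial_of_on {v : DVal K} (hv : X.On v) : Divisorial v := by
  obtain ⟨i, hi⟩ := hv
  exact ⟨X.chart i, X.chart_fg i, hi⟩

/-- The forms of degree `k`: the sections of `O (k)`. -/
def Form (k : ℕ) : Submodule ℂ K where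
  carrier := {g | ∀ j, g / X.x j ^ k ∈ X.chart j}
  zero_mem' := fun j => by rw [zero_div]; exact Subalgebra.zero_mem _
  add_mem' := by
    intro f g hf hg j
    rw [add_div]
    exact add_mem (hf j) (hg j)
  smul_mem' := by
    intro c f hf j
    rw [Algebra.smul_def, mul_div_assoc]
    exact mul_mem (Subalgebra.algebraMap_mem _ c) (hf j)

theorem div_mem (i j : Fin (X.N + 1)) : X.x j / X.x i ∈ X.chart i :=
  Algebra.subset_adjoin ⟨j, rfl⟩

theorem x_mem_form (i : Fin (X.N + 1)) : X.x i ∈ X.Form 1 := fun j => by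
  rw [pow_one]; exact X.div_mem j i

theorem one_mem_form : (1 : K) ∈ X.Form 0 := fun j => by
  rw [pow_zero, div_one]; exact Subalgebra.one_mem _

theorem mul_mem_form {k l : ℕ} {f g : K} (hf : f ∈ X.Form k) (hg : g ∈ X.Form l) :
    f * g ∈ X.Form (k + l) := fun j => by
  rw [pow_add, mul_div_mul_comm]
  exact mul_mem (hf j) (hg j)

theorem pow_mem_form {k : ℕ} {f : K} (hf : f ∈ X.Form k) (m : ℕ) : f ^ m ∈ X.Form (m * k) := by
  induction m with
  | zero => rw [pow_zero, zero_mul]; exact X.one_mem_form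
  | succ m ih =>
    rw [pow_succ, Nat.succ_mul]
    exact X.mul_mem_form ih hf

theorem prod_mem_form {ι : Type} (s : Finset ι) (f : ι → K) (k : ι → ℕ)
    (h : ∀ i ∈ s, f i ∈ X.Form (k i)) : ∏ i ∈ s, f i ∈ X.Form (∑ i ∈ s, k i) := by
  classical
  induction s using Finset.induction_on with
  | empty => rw [Finset.prod_empty, Finset.sum_empty]; exact X.one_mem_form
  | insert a s ha ih =>
    rw [Finset.prod_insert ha, Finset.sum_insert ha]
    exact X.mul_mem_form (h a (Finset.mem_insert_self _ _))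
      (ih fun i hi => h i (Finset.mem_insert_of_mem hi))

/-- A function on a chart is a form divided by a power of the coordinate. -/
theorem exists_form (i : Fin (X.N + 1)) {q : K} (hq : q ∈ X.chart i) :
    ∃ a : ℕ, ∀ b, a ≤ b → X.x i ^ b * q ∈ X.Form b := by
  have hstep : ∀ {a b : ℕ} {q : K}, X.x i ^ a * q ∈ X.Form a → a ≤ b →
      X.x i ^ b * q ∈ X.Form b := by
    intro a b q h hab
    have h1 := X.mul_mem_form (X.pow_mem_form (X.x_mem_form i) (b - a)) h
    rw [mul_one, Nat.sub_add_cancel hab, ← mul_assoc, ← pow_add, Nat.sub_add_cancel hab] at h1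
    exact h1
  suffices h : ∃ a : ℕ, X.x i ^ a * q ∈ X.Form a by
    obtain ⟨a, ha⟩ := h
    exact ⟨a, fun b hb => hstep ha hb⟩
  induction hq using Algebra.adjoin_induction with
  | mem f hf =>
    obtain ⟨j, rfl⟩ := hf
    refine ⟨1, ?_⟩
    rw [pow_one, mul_div_cancel₀ _ (X.ne i)]
    exact X.x_mem_form j
  | algebraMap c =>
    refine ⟨0, ?_⟩
    rw [pow_zero, one_mul, Algebra.algebraMap_eq_smul_one]
    exact Submodule.smul_mem _ _ X.one_mem_form
  | add f g _ _ hf hg =>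
    obtain ⟨a, ha⟩ := hf
    obtain ⟨b, hb⟩ := hg
    refine ⟨max a b, ?_⟩
    rw [mul_add]
    exact add_mem (hstep ha (le_max_left _ _)) (hstep hb (le_max_right _ _))
  | mul f g _ _ hf hg =>
    obtain ⟨a, ha⟩ := hf
    obtain ⟨b, hb⟩ := hg
    refine ⟨a + b, ?_⟩
    have h1 : X.x i ^ (a + b) * (f * g) = (X.x i ^ a * f) * (X.x i ^ b * g) := by
      rw [pow_add]; ring
    rw [h1]
    exact X.mul_mem_form ha hb

end ProjVar

/-- If elements of an affine algebra have no common zero, then not all of them vanish at the centre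
of a valuation. -/
theorem exists_ord_zero {S : Subalgebra ℂ K} {v : DVal K} (hv : ∀ f ∈ S, v.Reg f) {F : Finset S}
    (h1 : (1 : S) ∈ Submodule.span S (F : Set S)) : ∃ q ∈ F, (q : K) ≠ 0 ∧ v.ord (q : K) = 0 := by
  by_contra hcon
  push Not at hcon
  have hpos : ∀ q ∈ F, v.Pos (q : K) := by
    intro q hq
    by_cases h0 : (q : K) = 0
    · exact Or.inl h0
    · right
      have h3 := hcon q hq h0
      have h5 := v.ord_nonneg h0 (hv _ q.2)
      omega
  have h6 : v.Pos ((1 : S) : K) := by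
    refine Submodule.span_induction (p := fun (x : S) _ => v.Pos (x : K)) ?_ ?_ ?_ ?_ h1
    · intro q hq
      exact hpos q hq
    · exact Or.inl rfl
    · intro x y _ _ hx hy
      exact v.pos_add hx hy
    · intro s x _ hx
      exact v.pos_mul_left (hv _ s.2) hx
  rcases h6 with h7 | h7
  · exact one_ne_zero h7
  · have : v.ord ((1 : S) : K) = 0 := v.ord_one
    omega

/-- Quasi-compactness: finitely many local equations suffice on every chart. -/
theorem QCartier.exists_cover {X : ProjVar K} (B : QCartier X) (i : Fin (X.N + 1)) :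
    ∃ F : Finset (X.chart i), (∀ b ∈ F, ∃ (r : ℕ) (f : K), 1 ≤ r ∧ f ≠ 0 ∧
      ∀ v, Divisorial v → X.Meets i b v → (r : ℚ) * B.c v = v.ord f) ∧
      ∀ v : DVal K, (∀ f ∈ X.chart i, v.Reg f) → ∃ b ∈ F, X.Meets i b v := by
  set Z : Set (X.chart i) := {b | ∃ (r : ℕ) (f : K), 1 ≤ r ∧ f ≠ 0 ∧
      ∀ v, Divisorial v → X.Meets i b v → (r : ℚ) * B.c v = v.ord f} with hZ
  have htop : Ideal.span Z = ⊤ := by
    by_contra hne
    obtain ⟨M, hM, hIM⟩ := Ideal.exists_le_maximal _ hne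
    obtain ⟨φ, hφ⟩ := exists_point (X.chart_fg i) M hM
    obtain ⟨b, r, f, hb, hr, hf, h⟩ := B.loc i φ
    apply hb
    rw [hφ]
    exact hIM (Ideal.subset_span ⟨r, f, hr, hf, h⟩)
  have h1 : (1 : X.chart i) ∈ Submodule.span (X.chart i) Z := by
    change (1 : X.chart i) ∈ Ideal.span Z
    rw [htop]
    exact Submodule.mem_top
  obtain ⟨F, hF, h1F⟩ := Submodule.mem_span_finite_of_mem_span h1
  refine ⟨F, fun b hb => hF hb, fun v hv => ?_⟩
  obtain ⟨b, hb, hb0, hb1⟩ := exists_ord_zero hv h1F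
  exact ⟨b, hb, hv, hb0, hb1⟩

/-- A `ℚ`-Cartier divisor is bounded by a multiple of the hyperplane class. -/
theorem QCartier.exists_dom {X : ProjVar K} (B : QCartier X) :
    ∃ (a : ℕ) (h : K), h ≠ 0 ∧ ∀ v, Divisorial v → ∀ i, (∀ f ∈ X.chart i, v.Reg f) →
      B.c v ≤ v.ord h - a * v.ord (X.x i) := by
  classical
  choose F hF1 hF2 using fun i => B.exists_cover i
  have hdat : ∀ i, ∀ b : X.chart i, ∃ (r : ℕ) (q : K) (e : ℕ), b ∈ F i → 1 ≤ r ∧ q ≠ 0 ∧
      q ∈ X.chart i ∧ X.x i ^ e * q ∈ X.Form e ∧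
      ∀ v, Divisorial v → X.Meets i b v → (r : ℚ) * B.c v ≤ v.ord q := by
    intro i b
    by_cases hb : b ∈ F i
    · obtain ⟨r, f, hr, hf, h⟩ := hF1 i b hb
      obtain ⟨p, q, hp, hq, hq0, hpq⟩ := X.frac i f
      have hp0 : p ≠ 0 := by
        rw [← hpq]
        exact mul_ne_zero hf hq0
      obtain ⟨e, he⟩ := X.exists_form i hp
      refine ⟨r, p, e, fun _ => ⟨hr, hp0, hp, he e le_rfl, fun v hv hm => ?_⟩⟩
      rw [h v hv hm]
      have h1 : v.ord p = v.ord f + v.ord q := by rw [← hpq, ord_mul hf hq0]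
      have h2 := v.ord_nonneg hq0 (hm.1 q hq)
      have h3 : v.ord f ≤ v.ord p := by omega
      exact_mod_cast h3
    · exact ⟨0, 0, 0, fun h => absurd h hb⟩
  choose r q e hdat using hdat
  let I : Finset (Σ i, X.chart i) := Finset.univ.sigma F
  let Q : (Σ i, X.chart i) → K := fun s => X.x s.1 ^ e s.1 s.2 * q s.1 s.2
  have hQ0 : ∀ s ∈ I, Q s ≠ 0 := by
    intro s hs
    have h1 := hdat s.1 s.2 (Finset.mem_sigma.1 hs).2
    exact mul_ne_zero (pow_ne_zero _ (X.ne _)) h1.2.1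
  refine ⟨∑ s ∈ I, e s.1 s.2, ∏ s ∈ I, Q s, Finset.prod_ne_zero_iff.2 hQ0, fun v hv i hi => ?_⟩
  have hnn : ∀ s ∈ I, 0 ≤ v.ord (Q s) - e s.1 s.2 * v.ord (X.x i) := by
    intro s hs
    have h1 := hdat s.1 s.2 (Finset.mem_sigma.1 hs).2
    have h2 : Q s / X.x i ^ e s.1 s.2 ∈ X.chart i := h1.2.2.2.1 i
    have h3 := v.ord_nonneg (div_ne_zero (hQ0 s hs) (pow_ne_zero _ (X.ne i))) (hi _ h2)
    rw [v.ord_div (hQ0 s hs) (pow_ne_zero _ (X.ne i)), v.ord_pow (X.ne i)] at h3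
    exact h3
  obtain ⟨b, hb, hm⟩ := hF2 i v hi
  have hs : (⟨i, b⟩ : Σ i, X.chart i) ∈ I := Finset.mem_sigma.2 ⟨Finset.mem_univ _, hb⟩
  obtain ⟨hr, hq0, hq, -, hB⟩ := hdat i b hb
  have h4 : v.ord (Q ⟨i, b⟩) - e i b * v.ord (X.x i) = v.ord (q i b) := by
    change v.ord (X.x i ^ e i b * q i b) - _ = _
    rw [ord_mul (pow_ne_zero _ (X.ne i)) hq0, v.ord_pow (X.ne i)]
    ring
  have h5 : v.ord (q i b) ≤ ∑ s ∈ I, (v.ord (Q s) - e s.1 s.2 * v.ord (X.x i)) := by
    rw [← h4]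
    exact Finset.single_le_sum (f := fun s : Σ i, X.chart i =>
      v.ord (Q s) - e s.1 s.2 * v.ord (X.x i)) hnn hs
  have h6 : v.ord (∏ s ∈ I, Q s) = ∑ s ∈ I, v.ord (Q s) := v.ord_prod _ _ hQ0
  have h7 : v.ord (q i b) ≤ v.ord (∏ s ∈ I, Q s) - (∑ s ∈ I, e s.1 s.2 : ℕ) * v.ord (X.x i) := by
    rw [h6]
    push_cast
    rw [Finset.sum_mul, ← Finset.sum_sub_distrib]
    exact h5
  have h8 := hB v hv hm
  have h9 : 0 ≤ v.ord (q i b) := v.ord_nonneg hq0 (hi _ hq)
  have h10 : (v.ord (q i b) : ℚ) ≤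
      v.ord (∏ s ∈ I, Q s) - (∑ s ∈ I, e s.1 s.2 : ℕ) * v.ord (X.x i) := by exact_mod_cast h7
  have h9' : (0 : ℚ) ≤ v.ord (q i b) := by exact_mod_cast h9
  have hr' : (1 : ℚ) ≤ r i b := by exact_mod_cast hr
  rcases le_total (B.c v) 0 with h | h
  · linarith
  · nlinarith

/-- The sections of a dominated divisor are forms. -/
theorem sections_form {X : ProjVar K} {B : DVal K → ℚ} {a : ℕ} {h : K} (h0 : h ≠ 0)
    (hB : ∀ v, Divisorial v → ∀ i, (∀ f ∈ X.chart i, v.Reg f) →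
      B v ≤ v.ord h - a * v.ord (X.x i)) {m : ℕ} {g : K} (hg : g ∈ X.sections B m) :
    g * h ^ m ∈ X.Form (m * a) := by
  intro j
  by_cases hg0 : g = 0
  · rw [hg0, zero_mul, zero_div]
    exact Subalgebra.zero_mem _
  have hg1 := hg.resolve_left hg0
  refine Pool.Agent.W497.Mld.hartogs (X.chart_fg j) (X.frac j) (X.normal j) fun w hw => ?_
  right
  have h1 := hg1 w ⟨j, hw⟩
  have h2 := hB w (X.divisorial_of_on ⟨j, hw⟩) j hw.1
  have h3 : w.ord (g * h ^ m / X.x j ^ (m * a)) =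
      w.ord g + m * w.ord h - (m * a : ℕ) * w.ord (X.x j) := by
    rw [w.ord_div (mul_ne_zero hg0 (pow_ne_zero _ h0)) (pow_ne_zero _ (X.ne j)),
      ord_mul hg0 (pow_ne_zero _ h0), w.ord_pow h0, w.ord_pow (X.ne j)]
  have h4 : (0 : ℚ) ≤ ((w.ord g + m * w.ord h - (m * a : ℕ) * w.ord (X.x j) : ℤ) : ℚ) := by
    have h5 := mul_le_mul_of_nonneg_left h2 (Nat.cast_nonneg (α := ℚ) m)
    push_cast
    linarith
  rw [h3]
  exact_mod_cast h4

end Run7.h530
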