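import Mathlib
import Pool.Agent.Run7.h530.Noether

/-!
# Orders of polynomials
-/

set_option autoImplicit false

namespace Run7.h530

open Pool.Agent.H436R3.Fol Matrix MvPolynomial

variable {K : Type} [Field K] [Algebra ℂ K] {n : ℕ}

theorem totalDegree_pderiv_le {κ : Type} {P : MvPolynomial κ ℂ} (a : κ) {n : ℕ}
    (h : P.totalDegree ≤ n + 1) : (pderiv a P).totalDegree ≤ n := by
  unfold totalDegree
  refine Finset.sup_le fun m hm => ?_
  rw [mem_support_iff, coeff_pderiv] at hm
  have h1 : m + Finsupp.single a 1 ∈ P.support := by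
    rw [mem_support_iff]
    intro h2
    rw [h2, zero_mul] at hm
    exact hm rfl
  have h2 := le_totalDegree h1
  rw [Finsupp.sum_add_index' (fun _ => rfl) (fun _ _ _ => rfl),
    Finsupp.sum_single_index rfl] at h2
  omega

theorem exists_pderiv_ne {κ : Type} {P : MvPolynomial κ ℂ} (h : ∀ c, P ≠ C c) :
    ∃ a, pderiv a P ≠ 0 := by
  classical
  by_contra hcon
  push Not at hcon
  have hc : ∀ m, m ≠ 0 → coeff m P = 0 := by
    intro m hm
    obtain ⟨i, hi⟩ := Finsupp.ne_iff.1 hm
    rw [Finsupp.zero_apply] at hi
    have h1 : m = (m - Finsupp.single i 1) + Finsupp.single i 1 := by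
      rw [tsub_add_cancel_of_le]
      rw [Finsupp.single_le_iff]
      omega
    have h2 := coeff_pderiv (i := i) P (m - Finsupp.single i 1)
    rw [hcon i, coeff_zero, ← h1] at h2
    rcases mul_eq_zero.1 h2.symm with h3 | h3
    · exact h3
    · exfalso
      have : ((m - Finsupp.single i 1 : κ →₀ ℕ) i : ℂ) + 1 ≠ 0 := Nat.cast_add_one_ne_zero _
      exact this h3
  apply h (coeff 0 P)
  ext m
  rw [coeff_C]
  by_cases hm : m = 0
  · rw [hm]; simp
  · rw [hc m hm, if_neg (Ne.symm hm)]

/-- The chain rule. -/
theorem chain_rule (D : Derivation ℂ K K) (z : Fin n → K) (P : MvPolynomial (Fin n) ℂ) :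
    D (aeval z P) = ∑ l, aeval z (pderiv l P) * D (z l) := by
  classical
  induction P using MvPolynomial.induction_on with
  | C a => simp
  | add p q hp hq => simp only [map_add, hp, hq, add_mul, Finset.sum_add_distrib]
  | mul_X p j hp =>
    rw [map_mul, aeval_X, Derivation.leibniz, hp, smul_eq_mul, smul_eq_mul]
    have h1 : ∀ l, aeval z (pderiv l (p * X j)) * D (z l) =
        (if l = j then aeval z p * D (z j) else 0) + z j * (aeval z (pderiv l p) * D (z l)) := by
      intro l
      rw [Derivation.leibniz, pderiv_X, smul_eq_mul, smul_eq_mul, map_add, map_mul, map_mul,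
        aeval_X]
      by_cases h : l = j
      · subst h
        rw [if_pos rfl, Pi.single_eq_same, map_one]
        ring
      · rw [if_neg h, Pi.single_eq_of_ne (Ne.symm h), map_zero]
        ring
    rw [Finset.sum_congr rfl fun l _ => h1 l, Finset.sum_add_distrib, Finset.sum_ite_eq' Finset.univ,
      if_pos (Finset.mem_univ _), Finset.mul_sum]

variable {ω : Frame K n} {v : DVal K} {a : ℤ}

/-- The order of a polynomial in regular coordinates is at most its degree times the log
discrepancy. -/
theorem ord_poly_le (ha : IsCanOrd ω v a) {z : Fin n → K} (hz : ∀ k, v.Reg (z k))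
    (hJ : jac ω z ≠ 0) (hind : AlgebraicIndependent ℂ z) (d : ℕ) (P : MvPolynomial (Fin n) ℂ)
    (hP : P ≠ 0) (hd : P.totalDegree ≤ d) :
    v.ord (aeval z P) ≤ d * (1 + a + v.ord (jac ω z)) := by
  have hA : 0 ≤ 1 + a + v.ord (jac ω z) := nonneg_of_reg ha hz hJ
  induction d generalizing P with
  | zero =>
    rw [Nat.le_zero, totalDegree_eq_zero_iff_eq_C] at hd
    have hc : coeff 0 P ≠ 0 := by
      intro h
      rw [h, C_0] at hd
      exact hP hd
    rw [hd, aeval_C, v.const _ hc]
    simp
  | succ d ih =>
    by_cases h : ∀ c, P ≠ C c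
    · obtain ⟨i, hi⟩ := exists_pderiv_ne h
      have h1 := ih (pderiv i P) hi (totalDegree_pderiv_le i hd)
      have h2 : aeval z (pderiv i P) ≠ 0 := by
        intro h0
        exact hi ((injective_iff_map_eq_zero _).1
          (algebraicIndependent_iff_injective_aeval.1 hind) _ h0)
      have h3 := ord_le_derivative ha hz hJ (g := aeval z P)
        (c := fun l => aeval z (pderiv l P)) (fun j => chain_rule _ _ _) h2
      push_cast
      linarith
    · push Not at h
      obtain ⟨c, rfl⟩ := h
      have hc : c ≠ 0 := by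
        rintro rfl
        exact hP C_0
      rw [aeval_C, v.const _ hc]
      positivity

end Run7.h530
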