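import Mathlib
import Pool.Agent.Run7.h530.Poly

/-!
# The degree of a polynomial and integrality at infinity
-/

set_option autoImplicit false

namespace Run7.h530

open Pool.Agent.H436R3.Fol

variable {K : Type} [Field K] [Algebra ℂ K] {n : ℕ}

/-- The coordinate ring of the chart at infinity of affine space. -/
def infChart (z : Fin n → K) (i : Fin n) : Subalgebra ℂ K :=
  Algebra.adjoin ℂ (insert (z i)⁻¹ (Set.range fun k => z k / z i))

variable {z : Fin n → K} {i : Fin n}

theorem inv_mem_inf : (z i)⁻¹ ∈ infChart z i :=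
  Algebra.subset_adjoin (Set.mem_insert _ _)

theorem div_mem_inf (k : Fin n) : z k / z i ∈ infChart z i :=
  Algebra.subset_adjoin (Set.mem_insert_of_mem _ ⟨k, rfl⟩)

theorem aeval_div_mem_inf (P : MvPolynomial (Fin n) ℂ) {e : ℕ} (he : P.totalDegree ≤ e) :
    MvPolynomial.aeval z P / z i ^ e ∈ infChart z i := by
  rw [MvPolynomial.aeval_def, MvPolynomial.eval₂_eq', Finset.sum_div]
  refine sum_mem fun m hm => ?_
  have h1 := (MvPolynomial.le_totalDegree hm).trans he
  have h2 : ∑ k, m k ≤ e := by
    rw [Finsupp.sum_fintype _ _ (fun _ => rfl)] at h1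
    exact h1
  obtain ⟨c, hc⟩ := Nat.exists_eq_add_of_le h2
  have h4 : algebraMap ℂ K (MvPolynomial.coeff m P) * (∏ k, z k ^ m k) / z i ^ e =
      algebraMap ℂ K (MvPolynomial.coeff m P) * ((∏ k, (z k / z i) ^ m k) * ((z i)⁻¹) ^ c) := by
    have h5 : ∏ k, (z k / z i) ^ m k = (∏ k, z k ^ m k) / z i ^ (∑ k, m k) := by
      rw [← Finset.prod_pow_eq_pow_sum, ← Finset.prod_div_distrib]
      exact Finset.prod_congr rfl fun k _ => div_pow _ _ _
    rw [h5, hc, pow_add, div_eq_mul_inv, div_eq_mul_inv, mul_inv, inv_pow]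
    ring
  rw [h4]
  refine mul_mem (Subalgebra.algebraMap_mem _ _) (mul_mem (prod_mem fun k _ => ?_) ?_)
  · exact pow_mem (div_mem_inf k) _
  · exact pow_mem inv_mem_inf _

theorem exists_of_mem_inf (hz0 : z i ≠ 0) {q : K} (hq : q ∈ infChart z i) :
    ∃ (e : ℕ) (Q : MvPolynomial (Fin n) ℂ), Q.totalDegree ≤ e ∧
      q * z i ^ e = MvPolynomial.aeval z Q := by
  induction hq using Algebra.adjoin_induction with
  | mem f hf =>
    rcases Set.mem_insert_iff.1 hf with rfl | ⟨k, rfl⟩
    · refine ⟨1, 1, by rw [MvPolynomial.totalDegree_one]; exact Nat.zero_le _, ?_⟩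
      rw [pow_one, map_one, inv_mul_cancel₀ hz0]
    · refine ⟨1, MvPolynomial.X k, by rw [MvPolynomial.totalDegree_X], ?_⟩
      rw [pow_one, MvPolynomial.aeval_X]
      exact div_mul_cancel₀ _ hz0
  | algebraMap c =>
    refine ⟨0, MvPolynomial.C c, by rw [MvPolynomial.totalDegree_C], ?_⟩
    rw [pow_zero, mul_one, MvPolynomial.aeval_C]
  | add f g _ _ hf hg =>
    obtain ⟨a, P, hP, hP'⟩ := hf
    obtain ⟨b, Q, hQ, hQ'⟩ := hg
    refine ⟨a + b, P * MvPolynomial.X i ^ b + Q * MvPolynomial.X i ^ a, ?_, ?_⟩
    · refine (MvPolynomial.totalDegree_add _ _).trans (max_le ?_ ?_)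
      · refine (MvPolynomial.totalDegree_mul _ _).trans ?_
        rw [MvPolynomial.totalDegree_X_pow]
        omega
      · refine (MvPolynomial.totalDegree_mul _ _).trans ?_
        rw [MvPolynomial.totalDegree_X_pow]
        omega
    · rw [map_add, map_mul, map_mul, map_pow, map_pow, MvPolynomial.aeval_X, ← hP', ← hQ', pow_add]
      ring
  | mul f g _ _ hf hg =>
    obtain ⟨a, P, hP, hP'⟩ := hf
    obtain ⟨b, Q, hQ, hQ'⟩ := hg
    refine ⟨a + b, P * Q, (MvPolynomial.totalDegree_mul _ _).trans (by omega), ?_⟩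
    rw [map_mul, ← hP', ← hQ', pow_add]
    ring

/-- A polynomial which becomes integral at infinity after the division by `z_i ^ M` has degree at
most `M`. -/
theorem totalDegree_le_of_isIntegral (hind : AlgebraicIndependent ℂ z)
    {P : MvPolynomial (Fin n) ℂ} {M : ℕ}
    (h : IsIntegral (infChart z i) (MvPolynomial.aeval z P / z i ^ M)) : P.totalDegree ≤ M := by
  classical
  have hinj := algebraicIndependent_iff_injective_aeval.1 hind
  have hz0 : z i ≠ 0 := hind.ne_zero i
  by_contra hcon
  push Not at hcon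
  have hP0 : P ≠ 0 := by
    rintro rfl
    rw [MvPolynomial.totalDegree_zero] at hcon
    omega
  obtain ⟨p, hp, hpe⟩ := h
  set s := p.natDegree with hs
  choose e Q hQ hQ' using fun j : ℕ => exists_of_mem_inf hz0 (p.coeff j).2
  set E := ∑ j ∈ Finset.range s, e j with hE
  have heE : ∀ j ∈ Finset.range s, e j ≤ E := fun j hj =>
    Finset.single_le_sum (f := e) (fun _ _ => Nat.zero_le _) hj
  have hkey : MvPolynomial.X i ^ E * P ^ s =
      -∑ j ∈ Finset.range s, Q j * MvPolynomial.X i ^ (E - e j) *
        MvPolynomial.X i ^ (M * (s - j)) * P ^ j := by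
    apply hinj
    rw [Polynomial.eval₂_eq_sum_range, Finset.sum_range_succ, ← hs] at hpe
    have h1 : p.coeff s = 1 := by rw [hs]; exact hp
    rw [h1, map_one, one_mul] at hpe
    have h2 : (∑ j ∈ Finset.range s, algebraMap (infChart z i) K (p.coeff j) *
        (MvPolynomial.aeval z P / z i ^ M) ^ j) * z i ^ (E + M * s) +
        (MvPolynomial.aeval z P / z i ^ M) ^ s * z i ^ (E + M * s) = 0 := by
      rw [← add_mul, hpe, zero_mul]
    have h3 : (MvPolynomial.aeval z P / z i ^ M) ^ s * z i ^ (E + M * s) =
        z i ^ E * (MvPolynomial.aeval z P) ^ s := by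
      rw [div_pow, ← pow_mul, pow_add]
      field_simp
    have h4 : (∑ j ∈ Finset.range s, algebraMap (infChart z i) K (p.coeff j) *
        (MvPolynomial.aeval z P / z i ^ M) ^ j) * z i ^ (E + M * s) =
        ∑ j ∈ Finset.range s, MvPolynomial.aeval z (Q j) * z i ^ (E - e j) *
          z i ^ (M * (s - j)) * (MvPolynomial.aeval z P) ^ j := by
      rw [Finset.sum_mul]
      refine Finset.sum_congr rfl fun j hj => ?_
      rw [← hQ' j]
      have h5 : z i ^ (E + M * s) = z i ^ e j * z i ^ (E - e j) * z i ^ (M * (s - j)) *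
          (z i ^ M) ^ j := by
        rw [← pow_mul, ← pow_add, ← pow_add, ← pow_add]
        congr 1
        have h6 := heE j hj
        have h7 := Finset.mem_range.1 hj
        have h8 : M * s = M * (s - j) + M * j := by
          rw [← Nat.mul_add, Nat.sub_add_cancel h7.le]
        omega
      rw [h5, div_pow]
      have h9 : (z i ^ M) ^ j ≠ 0 := pow_ne_zero _ (pow_ne_zero _ hz0)
      field_simp
      exact mul_comm _ _
    rw [h3, h4] at h2
    rw [map_neg, map_sum, map_mul, map_pow, map_pow, MvPolynomial.aeval_X]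
    simp only [map_mul, map_pow, MvPolynomial.aeval_X]
    exact eq_neg_of_add_eq_zero_right h2
  have hdeg := congrArg MvPolynomial.totalDegree hkey
  rw [MvPolynomial.totalDegree_neg, MvPolynomial.totalDegree_mul_of_isDomain
    (pow_ne_zero _ (MvPolynomial.X_ne_zero i)) (pow_ne_zero _ hP0),
    MvPolynomial.totalDegree_X_pow] at hdeg
  have hpow : (P ^ s).totalDegree = s * P.totalDegree := by
    have : ∀ s : ℕ, (P ^ s).totalDegree = s * P.totalDegree := by
      intro s
      induction s with
      | zero => rw [pow_zero, MvPolynomial.totalDegree_one, zero_mul]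
      | succ s ih =>
        rw [pow_succ, MvPolynomial.totalDegree_mul_of_isDomain (pow_ne_zero _ hP0) hP0, ih]
        ring
    exact this s
  rw [hpow] at hdeg
  have hs0 : s ≠ 0 := by
    intro h0
    have h1 : p = 1 := by
      rw [← hp.natDegree_eq_zero]
      exact h0
    rw [h1, Polynomial.eval₂_one] at hpe
    exact one_ne_zero hpe
  have hle : (∑ j ∈ Finset.range s, Q j * MvPolynomial.X i ^ (E - e j) *
        MvPolynomial.X i ^ (M * (s - j)) * P ^ j).totalDegree ≤
        E + M + (s - 1) * P.totalDegree := by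
    refine MvPolynomial.totalDegree_finsetSum_le fun j hj => ?_
    have h6 := heE j hj
    have h7 := Finset.mem_range.1 hj
    refine (MvPolynomial.totalDegree_mul _ _).trans ?_
    have h10 : (P ^ j).totalDegree ≤ j * P.totalDegree := MvPolynomial.totalDegree_pow _ _
    have h11 : (Q j * MvPolynomial.X i ^ (E - e j) *
        MvPolynomial.X i ^ (M * (s - j))).totalDegree ≤ E + M * (s - j) := by
      refine (MvPolynomial.totalDegree_mul _ _).trans ?_
      rw [MvPolynomial.totalDegree_X_pow]
      have h12 : (Q j * MvPolynomial.X i ^ (E - e j)).totalDegree ≤ E := by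
        refine (MvPolynomial.totalDegree_mul _ _).trans ?_
        rw [MvPolynomial.totalDegree_X_pow]
        have := hQ j
        omega
      omega
    obtain ⟨c, hc⟩ : ∃ c, s = j + 1 + c := ⟨s - (j + 1), by omega⟩
    have h13 : s - j = c + 1 := by omega
    have h14 : s - 1 = j + c := by omega
    rw [h14]
    have h15 : M * c ≤ P.totalDegree * c := Nat.mul_le_mul_right _ hcon.le
    have h16 : M * (s - j) = M * c + M := by rw [h13]; ring
    have h17 : (j + c) * P.totalDegree = j * P.totalDegree + P.totalDegree * c := by ring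
    omega
  rw [← hdeg] at hle
  obtain ⟨c, hc⟩ : ∃ c, s = c + 1 := ⟨s - 1, by omega⟩
  rw [hc, Nat.add_sub_cancel] at hle
  nlinarith

/-- An element which is integral over the polynomial ring becomes integral at infinity after the
division by a power of a coordinate. -/
theorem exists_isIntegral_inf {y : K}
    (hy : IsIntegral (Algebra.adjoin ℂ (Set.range z)) y) :
    ∃ c : ℕ, IsIntegral (infChart z i) (y / z i ^ c) := by
  obtain ⟨p, hp, hpe⟩ := hy
  have hex : ∀ j : ℕ, ∃ P : MvPolynomial (Fin n) ℂ, MvPolynomial.aeval z P = (p.coeff j : K) := by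
    intro j
    have h0 : ∀ x : K, x ∈ Algebra.adjoin ℂ (Set.range z) →
        ∃ P : MvPolynomial (Fin n) ℂ, MvPolynomial.aeval z P = x := by
      intro x hx
      rw [Algebra.adjoin_range_eq_range_aeval] at hx
      exact hx
    exact h0 _ (p.coeff j).2
  choose P hP using hex
  set c := ∑ j ∈ Finset.range p.natDegree, (P j).totalDegree with hc
  refine ⟨c, ?_⟩
  set pK := p.map (algebraMap (Algebra.adjoin ℂ (Set.range z)) K) with hpK
  have hmon : pK.Monic := hp.map _
  have hroot : pK.eval y = 0 := by
    rw [hpK, Polynomial.eval_map]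
    exact hpe
  set q := pK.scaleRoots ((z i ^ c)⁻¹) with hq
  have hqmon : q.Monic := (Polynomial.monic_scaleRoots_iff _).2 hmon
  have hqroot : q.eval (y / z i ^ c) = 0 := by
    have h1 := Polynomial.scaleRoots_eval_mul pK y ((z i ^ c)⁻¹)
    rw [hroot, mul_zero, mul_comm, ← div_eq_mul_inv] at h1
    exact h1
  have hdeg : pK.natDegree = p.natDegree := hp.natDegree_map _
  have hlift : q ∈ Polynomial.lifts (algebraMap (infChart z i) K) := by
    rw [Polynomial.lifts_iff_coeff_lifts]
    intro j
    have h1 : q.coeff j ∈ infChart z i := by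
      rw [hq, Polynomial.coeff_scaleRoots]
      have h2 : pK.coeff j = (p.coeff j : K) := by
        rw [hpK, Polynomial.coeff_map]
        rfl
      rcases lt_trichotomy j p.natDegree with h | h | h
      · rw [h2, ← hP j, hdeg, inv_pow, ← div_eq_mul_inv, ← pow_mul]
        apply aeval_div_mem_inf
        have h3 : (P j).totalDegree ≤ c :=
          Finset.single_le_sum (f := fun j => (P j).totalDegree) (fun _ _ => Nat.zero_le _)
            (Finset.mem_range.2 h)
        have h4 : 1 ≤ p.natDegree - j := by omega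
        nlinarith
      · have h5 : pK.coeff j = 1 := by
          rw [h, ← hdeg]
          exact hmon
        rw [h5, hdeg, h, Nat.sub_self, pow_zero, mul_one]
        exact Subalgebra.one_mem _
      · have h5 : pK.coeff j = 0 := Polynomial.coeff_eq_zero_of_natDegree_lt (by omega)
        rw [h5, zero_mul]
        exact Subalgebra.zero_mem _
    exact ⟨⟨_, h1⟩, rfl⟩
  obtain ⟨q', hq', -, hq'mon⟩ := Polynomial.lifts_and_natDegree_eq_and_monic hlift hqmon
  refine ⟨q', hq'mon, ?_⟩
  rw [← Polynomial.eval_map, hq', hqroot]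

/-- The integral closure is the intersection of the valuation rings. -/
theorem isIntegral_of_forall {S : Subalgebra ℂ K} {f : K}
    (h : ∀ V : ValuationSubring K, (∀ g ∈ S, g ∈ V) → f ∈ V) : IsIntegral S f := by
  have h1 : f ∈ (⨅ V : {V : ValuationSubring K // (S : Set K) ⊆ V.toSubring},
      V.1.toSubring) := by
    rw [Subring.mem_iInf]
    rintro ⟨V, hV⟩
    exact h V fun g hg => hV hg
  rw [iInf_valuationSubring_superset] at h1
  have h2 : Subring.closure (S : Set K) = S.toSubring := by
    apply le_antisymm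
    · rw [Subring.closure_le]
      exact fun x hx => hx
    · exact fun x hx => Subring.subset_closure hx
  have h3 : IsIntegral (Subring.closure (S : Set K)) f := h1
  rw [h2] at h3
  exact h3

theorem mem_of_isIntegral' {S : Subalgebra ℂ K} {f : K} (hf : IsIntegral S f)
    {V : ValuationSubring K} (hV : ∀ g ∈ S, g ∈ V) : f ∈ V := by
  obtain ⟨p, hp, hpe⟩ := hf
  let φ : S →+* V :=
    { toFun := fun x => ⟨x, hV x x.2⟩
      map_one' := rfl
      map_mul' := fun _ _ => rfl
      map_zero' := rfl
      map_add' := fun _ _ => rfl }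
  have h1 : IsIntegral V f := by
    refine ⟨p.map φ, hp.map _, ?_⟩
    rw [Polynomial.eval₂_map]
    exact hpe
  obtain ⟨y, hy⟩ := (IsIntegrallyClosed.isIntegral_iff (K := K)).1 h1
  rw [← hy]
  exact y.2

end Run7.h530
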