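import Mathlib
import Pool.Agent.Run7.h530.Infinity

/-!
# Orders of integral elements of bounded degree
-/

set_option autoImplicit false

namespace Run7.h530

open Pool.Agent.H436R3.Fol
open scoped IntermediateField.algebraAdjoinAdjoin

variable {K : Type} [Field K] [Algebra ℂ K] {n : ℕ}

theorem adjoin_isIntegrallyClosed {z : Fin n → K} (hind : AlgebraicIndependent ℂ z) :
    IsIntegrallyClosed (Algebra.adjoin ℂ (Set.range z)) :=
  IsIntegrallyClosed.of_equiv hind.aevalEquiv.toRingEquiv

/-- The norm of an integral element is divisible by the element. -/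
theorem ord_le_norm {z : Fin n → K} (hind : AlgebraicIndependent ℂ z)
    [FiniteDimensional (IntermediateField.adjoin ℂ (Set.range z)) K] {f : K} (hf0 : f ≠ 0)
    (hf : IsIntegral (Algebra.adjoin ℂ (Set.range z)) f) {v : DVal K} (hz : ∀ k, v.Reg (z k))
    (hfv : v.Reg f) :
    v.ord f ≤ v.ord (Algebra.norm (IntermediateField.adjoin ℂ (Set.range z)) f : K) := by
  have hA := adjoin_isIntegrallyClosed hind
  set A := Algebra.adjoin ℂ (Set.range z) with hAdef
  set E := IntermediateField.adjoin ℂ (Set.range z) with hEdef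
  have hreg : ∀ g ∈ A, v.Reg g := by
    intro g hg
    induction hg using Algebra.adjoin_induction with
    | mem f hf => obtain ⟨k, rfl⟩ := hf; exact hz k
    | algebraMap c => exact v.reg_const c
    | add f g _ _ hf hg => exact v.reg_add hf hg
    | mul f g _ _ hf hg => exact v.reg_mul hf hg
  have hfE : IsIntegral E f := Algebra.IsIntegral.isIntegral f
  have hmin : minpoly E f = (minpoly A f).map (algebraMap A E) :=
    minpoly.isIntegrallyClosed_eq_field_fractions' E hf
  set p := minpoly A f with hp
  have hc : ((minpoly E f).coeff 0 : K) = (p.coeff 0 : K) := by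
    rw [hmin, Polynomial.coeff_map]
    rfl
  have hc0 : ((minpoly E f).coeff 0 : K) ≠ 0 := by
    intro h
    exact minpoly.coeff_zero_ne_zero hfE hf0 (Subtype.ext h)
  have h1 : v.ord f ≤ v.ord ((minpoly E f).coeff 0 : K) := by
    have h2 : Polynomial.aeval f p = 0 := minpoly.aeval A f
    have h3 := Polynomial.divX_mul_X_add p
    rw [← h3, map_add, map_mul, Polynomial.aeval_X, Polynomial.aeval_C] at h2
    have h4 : ((minpoly E f).coeff 0 : K) = -(Polynomial.aeval f p.divX) * f := by
      rw [hc]
      have h5 : (p.coeff 0 : K) = algebraMap A K (p.coeff 0) := rfl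
      rw [h5, neg_mul]
      exact eq_neg_of_add_eq_zero_right h2
    have h6 : v.Reg (-(Polynomial.aeval f p.divX)) := by
      apply v.reg_neg
      have h7 : ∀ q : Polynomial A, v.Reg (Polynomial.aeval f q) := by
        intro q
        induction q using Polynomial.induction_on' with
        | add a b ha hb => rw [map_add]; exact v.reg_add ha hb
        | monomial m a =>
          rw [Polynomial.aeval_monomial]
          refine v.reg_mul (hreg _ a.2) ?_
          exact (v.O).pow_mem hfv m
      exact h7 _
    rw [h4] at hc0 ⊢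
    rw [ord_mul (left_ne_zero_of_mul hc0) hf0]
    have := v.ord_nonneg (left_ne_zero_of_mul hc0) h6
    omega
  have h2 : (Algebra.norm E f : K) = ((-1) ^ (IntermediateField.adjoin.powerBasis hfE).dim *
      ((minpoly E f).coeff 0 : K)) ^ Module.finrank (IntermediateField.adjoin E {f}) K := by
    rw [Algebra.norm_eq_norm_adjoin, ← IntermediateField.adjoin.powerBasis_gen hfE,
      Algebra.PowerBasis.norm_gen_eq_coeff_zero_minpoly, IntermediateField.adjoin.powerBasis_gen,
      IntermediateField.minpoly_gen]
    push_cast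
    rfl
  have hu : ((-1 : K)) ^ (IntermediateField.adjoin.powerBasis hfE).dim ≠ 0 :=
    pow_ne_zero _ (neg_ne_zero.2 one_ne_zero)
  have hv1 : v.ord ((-1 : K) ^ (IntermediateField.adjoin.powerBasis hfE).dim) = 0 := by
    rw [v.ord_pow (neg_ne_zero.2 one_ne_zero), v.ord_neg one_ne_zero, v.ord_one, mul_zero]
  rw [h2, v.ord_pow (mul_ne_zero hu hc0), ord_mul hu hc0, hv1, zero_add]
  have h3 : 1 ≤ Module.finrank (IntermediateField.adjoin E {f}) K := Module.finrank_pos
  have h4 := v.ord_nonneg hf0 hfv
  have h5 : (1 : ℤ) ≤ Module.finrank (IntermediateField.adjoin E {f}) K := by exact_mod_cast h3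
  nlinarith

/-- The order of an integral element of bounded degree. -/
theorem ord_le_of_degree {ω : Frame K n} {z : Fin n → K} {i : Fin n}
    (hz : IsTranscendenceBasis ℂ z)
    [FiniteDimensional (IntermediateField.adjoin ℂ (Set.range z)) K] {f : K} (hf0 : f ≠ 0)
    (hf : IsIntegral (Algebra.adjoin ℂ (Set.range z)) f) {r : ℕ}
    (hr : IsIntegral (infChart z i) (f / z i ^ r)) {v : DVal K} {a : ℤ} (ha : IsCanOrd ω v a)
    (hzv : ∀ k, v.Reg (z k)) (hfv : v.Reg f) :
    v.ord f ≤ (r * Module.finrank (IntermediateField.adjoin ℂ (Set.range z)) K : ℕ) *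
      (1 + a + v.ord (jac ω z)) := by
  have hind := hz.1
  have hA := adjoin_isIntegrallyClosed hind
  refine (ord_le_norm hind hf0 hf hzv hfv).trans ?_
  have hz0 : z i ≠ 0 := hind.ne_zero i
  have hnA : ∃ P : MvPolynomial (Fin n) ℂ, MvPolynomial.aeval z P =
      (Algebra.norm (IntermediateField.adjoin ℂ (Set.range z)) f : K) := by
    have h1 : IsIntegral (Algebra.adjoin ℂ (Set.range z))
        (Algebra.norm (IntermediateField.adjoin ℂ (Set.range z)) f) :=
      Algebra.isIntegral_norm _ hf
    obtain ⟨y, hy⟩ := IsIntegrallyClosed.isIntegral_iff.1 h1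
    have h0 : ∀ x : K, x ∈ Algebra.adjoin ℂ (Set.range z) →
        ∃ P : MvPolynomial (Fin n) ℂ, MvPolynomial.aeval z P = x := by
      intro x hx
      rw [Algebra.adjoin_range_eq_range_aeval] at hx
      exact hx
    rw [← hy]
    exact h0 _ y.2
  obtain ⟨P, hP⟩ := hnA
  set E := IntermediateField.adjoin ℂ (Set.range z) with hEdef
  have hzE : ∀ k, z k ∈ E := fun k => IntermediateField.subset_adjoin _ _ ⟨k, rfl⟩
  have hle : infChart z i ≤ E.toSubalgebra := by
    unfold infChart
    rw [Algebra.adjoin_le_iff]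
    intro x hx
    rcases Set.mem_insert_iff.1 hx with rfl | ⟨k, rfl⟩
    · exact E.inv_mem (hzE i)
    · exact E.div_mem (hzE k) (hzE i)
  let _ : Algebra (infChart z i) E := (Subalgebra.inclusion hle).toAlgebra
  have : IsScalarTower (infChart z i) E K := IsScalarTower.of_algebraMap_eq fun _ => rfl
  have hdiv : Algebra.norm E (f / z i ^ r) =
      Algebra.norm E f / (⟨z i, hzE i⟩ : E) ^ (r * Module.finrank E K) := by
    have h1 : z i ^ r = algebraMap E K ((⟨z i, hzE i⟩ : E) ^ r) := by
      rw [map_pow]
      rfl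
    have h2 : Algebra.norm E (z i ^ r) = (⟨z i, hzE i⟩ : E) ^ (r * Module.finrank E K) := by
      rw [h1, Algebra.norm_algebraMap, pow_mul]
    rw [← h2, eq_div_iff]
    · rw [← map_mul, div_mul_cancel₀ _ (pow_ne_zero _ hz0)]
    · rw [Ne, Algebra.norm_eq_zero_iff]
      exact pow_ne_zero _ hz0
  have hint : IsIntegral (infChart z i) (Algebra.norm E (f / z i ^ r)) :=
    Algebra.isIntegral_norm E hr
  rw [hdiv] at hint
  have hint2 := hint.algebraMap (B := K)
  have h3 : algebraMap E K (Algebra.norm E f / (⟨z i, hzE i⟩ : E) ^ (r * Module.finrank E K)) =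
      MvPolynomial.aeval z P / z i ^ (r * Module.finrank E K) := by
    rw [map_div₀, map_pow, hP]
    rfl
  rw [h3] at hint2
  have hdeg := totalDegree_le_of_isIntegral hind hint2
  have hP0 : P ≠ 0 := by
    rintro rfl
    rw [map_zero] at hP
    have h4 : Algebra.norm E f = 0 := Subtype.ext hP.symm
    rw [Algebra.norm_eq_zero_iff] at h4
    exact hf0 h4
  rw [← hP]
  exact ord_poly_le ha hzv (jac_ne_zero ω hz) hind _ P hP0 hdeg

end Run7.h530
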