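import Mathlib
import Pool.Agent.Run7.h530.Cover
import Pool.Agent.Run7.h530.Degree

/-!
# Orders of sections are bounded by multiples of the log discrepancy
-/

set_option autoImplicit false

namespace Run7.h530

open Pool.Agent.H436R3.Fol
open scoped IntermediateField.algebraAdjoinAdjoin

variable {K : Type} [Field K] [Algebra ℂ K] {n : ℕ}

theorem finiteDimensional_of_noether {S : Subalgebra ℂ K} (hfg : S.FG)
    (hfrac : ∀ f : K, ∃ a b : K, a ∈ S ∧ b ∈ S ∧ b ≠ 0 ∧ f * b = a) {z : Fin n → K}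
    (hint : ∀ f ∈ S, IsIntegral (Algebra.adjoin ℂ (Set.range z)) f) :
    FiniteDimensional (IntermediateField.adjoin ℂ (Set.range z)) K := by
  obtain ⟨t, ht, rfl⟩ := Subalgebra.fg_def.1 hfg
  set E := IntermediateField.adjoin ℂ (Set.range z) with hE
  have : Finite t := ht
  have h1 : FiniteDimensional E (IntermediateField.adjoin E t) := by
    refine IntermediateField.finiteDimensional_adjoin fun x hx => ?_
    exact (hint x (Algebra.subset_adjoin hx)).tower_top
  have htop : IntermediateField.adjoin E t = ⊤ := by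
    rw [eq_top_iff]
    intro f _
    have h2 : ∀ g ∈ Algebra.adjoin ℂ t, g ∈ IntermediateField.adjoin E t := by
      intro g hg
      induction hg using Algebra.adjoin_induction with
      | mem g hg => exact IntermediateField.subset_adjoin _ _ hg
      | algebraMap c =>
        have : algebraMap ℂ K c = algebraMap E K (algebraMap ℂ E c) := rfl
        rw [this]
        exact IntermediateField.algebraMap_mem _ _
      | add f g _ _ hf hg => exact add_mem hf hg
      | mul f g _ _ hf hg => exact mul_mem hf hg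
    obtain ⟨a, b, ha, hb, hb0, hab⟩ := hfrac f
    have h3 : f = a / b := by rw [← hab, mul_div_cancel_right₀ _ hb0]
    rw [h3]
    exact div_mem (h2 a ha) (h2 b hb)
  rw [htop] at h1
  exact (IntermediateField.topEquiv (F := E) (E := K)).toLinearEquiv.finiteDimensional

theorem pos_of_dval {z : Fin n → K} (hz : IsTranscendenceBasis ℂ z) (v : DVal K) : 0 < n := by
  rcases Nat.eq_zero_or_pos n with rfl | h
  · exfalso
    obtain ⟨f, hf0, hf1⟩ := v.surj
    have h1 : Algebra.IsAlgebraic ℂ K := hz.isEmpty_iff_isAlgebraic.1 inferInstance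
    have h2 : Algebra.IsIntegral ℂ K := Algebra.isAlgebraic_iff_isIntegral.1 h1
    obtain ⟨c, rfl⟩ := (IsAlgClosed.algebraMap_bijective_of_isIntegral (k := ℂ) (K := K)).2 f
    have hc : c ≠ 0 := by
      rintro rfl
      exact hf0 (map_zero _)
    rw [v.const c hc] at hf1
    exact one_ne_zero hf1.symm
  · exact h

variable {X : ProjVar K} {ω : Frame K n}

/-- The order of a form on one chart is bounded by a multiple of its degree. -/
theorem exists_form_bound' (X : ProjVar K) (ω : Frame K n) (i : Fin (X.N + 1)) :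
    ∃ (C : ℕ) (F : K), F ≠ 0 ∧ ∀ (k : ℕ) (g : K), g ∈ X.Form k → g ≠ 0 →
      ∀ (v : DVal K) (a : ℤ), IsCanOrd ω v a → (∀ f ∈ X.chart i, v.Reg f) →
        v.ord (g / X.x i ^ k) ≤ C * k * (1 + a + v.ord F) := by
  obtain ⟨z, hzS, hz, hint⟩ := exists_noether ω (X.chart_fg i) (X.frac i)
  have hfin := finiteDimensional_of_noether (X.chart_fg i) (X.frac i) hint
  rcases Nat.eq_zero_or_pos n with h0 | h0
  · refine ⟨0, 1, one_ne_zero, fun k g _ _ v a _ _ => ?_⟩
    have := pos_of_dval hz v
    omega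
  set i0 : Fin n := ⟨0, h0⟩
  have hz0 : z i0 ≠ 0 := hz.1.ne_zero i0
  choose c hc using fun j => exists_isIntegral_inf (i := i0) (hint _ (X.div_mem i j))
  set C := ∑ j, c j with hC
  have hcC : ∀ j, IsIntegral (infChart z i0) (X.x j / X.x i / z i0 ^ C) := by
    intro j
    obtain ⟨d, hd⟩ := Nat.exists_eq_add_of_le
      (Finset.single_le_sum (f := c) (fun _ _ => Nat.zero_le _) (Finset.mem_univ j))
    have h1 : X.x j / X.x i / z i0 ^ C = X.x j / X.x i / z i0 ^ c j * ((z i0)⁻¹) ^ d := by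
      rw [hC, hd, pow_add, inv_pow]
      field_simp
    rw [h1]
    refine (hc j).mul ?_
    exact isIntegral_algebraMap (R := infChart z i0) (A := K)
      (x := ⟨_, pow_mem (inv_mem_inf (z := z) (i := i0)) d⟩)
  refine ⟨C * Module.finrank (IntermediateField.adjoin ℂ (Set.range z)) K, jac ω z,
    jac_ne_zero ω hz, fun k g hg hg0 v a ha hv => ?_⟩
  have hf0 : g / X.x i ^ k ≠ 0 := div_ne_zero hg0 (pow_ne_zero _ (X.ne i))
  have hinf : IsIntegral (infChart z i0) (g / X.x i ^ k / z i0 ^ (C * k)) := by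
    refine isIntegral_of_forall fun V hV => ?_
    have hconst : ∀ r : ℂ, algebraMap ℂ K r ∈ V := fun r =>
      hV _ (Subalgebra.algebraMap_mem _ r)
    have h1 : ∀ j, X.x j / X.x i / z i0 ^ C ∈ V := fun j => mem_of_isIntegral' (hcC j) hV
    obtain ⟨j, hj⟩ := Finite.exists_max fun j => V.valuation (X.x j)
    have h2 : ∀ l, X.x l / X.x j ∈ V := by
      intro l
      rw [← V.valuation_le_one_iff, map_div₀]
      exact div_le_one_of_le₀ (hj l) zero_le
    have h3 : ∀ f ∈ X.chart j, f ∈ V := by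
      intro f hf
      induction hf using Algebra.adjoin_induction with
      | mem f hf => obtain ⟨l, rfl⟩ := hf; exact h2 l
      | algebraMap r => exact hconst r
      | add f g _ _ hf hg => exact add_mem hf hg
      | mul f g _ _ hf hg => exact mul_mem hf hg
    have h4 : g / X.x i ^ k / z i0 ^ (C * k) =
        g / X.x j ^ k * (X.x j / X.x i / z i0 ^ C) ^ k := by
      have h5 := X.ne j
      rw [div_pow, div_pow, ← pow_mul]
      field_simp
    rw [h4]
    exact mul_mem (h3 _ (hg j)) (pow_mem (h1 j) k)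
  have h6 := ord_le_of_degree hz hf0 (hint _ (hg i)) hinf ha (fun k => hv _ (hzS k))
    (hv _ (hg i))
  refine h6.trans (le_of_eq ?_)
  push_cast
  ring

/-- The order of a form is bounded by a multiple of its degree and of the log discrepancy. -/
theorem exists_form_bound {D : LogPair ω X} (h : D.IsKlt) : ∃ C : ℚ, 0 ≤ C ∧
    ∀ (k : ℕ) (g : K), g ∈ X.Form k → g ≠ 0 → ∀ (v : DVal K) (a : ℤ), Divisorial v →
      IsCanOrd ω v a → ∀ i, (∀ f ∈ X.chart i, v.Reg f) →
        (v.ord (g / X.x i ^ k) : ℚ) ≤ C * k * (1 + a - D.κ.c v) := by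
  choose C F hF hC using fun i => exists_form_bound' X ω i
  choose C' hC'0 hC' using fun i => klt_bound h (F i) (hF i)
  refine ⟨∑ i, C i * C' i, Finset.sum_nonneg fun i _ => mul_nonneg (Nat.cast_nonneg _) (hC'0 i),
    fun k g hg hg0 v a hv ha i hi => ?_⟩
  have hA : 0 < 1 + (a : ℚ) - D.κ.c v := klt_pos h hv ⟨a, ha, rfl⟩
  have h1 := hC i k g hg hg0 v a ha hi
  have h2 := (hC' i v a hv ha).2
  have h3 : (v.ord (g / X.x i ^ k) : ℚ) ≤ C i * k * (1 + a + v.ord (F i)) := by exact_mod_cast h1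
  have h4 : (C i * C' i : ℚ) ≤ ∑ i, C i * C' i :=
    Finset.single_le_sum (f := fun i => (C i * C' i : ℚ))
      (fun i _ => mul_nonneg (Nat.cast_nonneg _) (hC'0 i)) (Finset.mem_univ i)
  calc (v.ord (g / X.x i ^ k) : ℚ) ≤ C i * k * (1 + a + v.ord (F i)) := h3
    _ ≤ C i * k * (C' i * (1 + a - D.κ.c v)) := mul_le_mul_of_nonneg_left h2 (by positivity)
    _ = C i * C' i * (k * (1 + a - D.κ.c v)) := by ring
    _ ≤ (∑ i, C i * C' i) * (k * (1 + a - D.κ.c v)) :=
      mul_le_mul_of_nonneg_right h4 (mul_nonneg (Nat.cast_nonneg _) hA.le)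
    _ = _ := by ring

/-- The order of a section of `m B` is bounded by a multiple of `m` and of the log discrepancy:
the alpha invariant of `B` is positive. -/
theorem exists_alpha {D : LogPair ω X} (h : D.IsKlt) (B : QCartier X) : ∃ C : ℚ, 0 ≤ C ∧
    ∀ (m : ℕ) (g : K), g ∈ X.sections B.c m → g ≠ 0 → ∀ (v : DVal K) (a : ℤ), Divisorial v →
      IsCanOrd ω v a → v.ord g + m * B.c v ≤ C * m * (1 + a - D.κ.c v) := by
  obtain ⟨C, hC0, hC⟩ := exists_form_bound h
  obtain ⟨e, u, hu0, hu⟩ := B.exists_dom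
  refine ⟨C * e, mul_nonneg hC0 (Nat.cast_nonneg _), fun m g hg hg0 v a hv ha => ?_⟩
  obtain ⟨i, hi⟩ := X.exists_chart v
  have h1 := sections_form hu0 hu hg
  have h2 := hC (m * e) _ h1 (mul_ne_zero hg0 (pow_ne_zero _ hu0)) v a hv ha i hi
  rw [v.ord_div (mul_ne_zero hg0 (pow_ne_zero _ hu0)) (pow_ne_zero _ (X.ne i)),
    ord_mul hg0 (pow_ne_zero _ hu0), v.ord_pow hu0, v.ord_pow (X.ne i)] at h2
  have h3 := mul_le_mul_of_nonneg_left (hu v hv i hi) (Nat.cast_nonneg (α := ℚ) m)
  push_cast at h2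
  linarith

end Run7.h530
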