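import Mathlib
import Pool.Agent.Run7.h530.Alpha

/-!
# Existence of a prime divisor whose centre is a given closed point
-/

set_option autoImplicit false

namespace Run7.h530

open Pool.Agent.H436R3.Fol
open scoped IntermediateField.algebraAdjoinAdjoin

variable {K : Type} [Field K] [Algebra ℂ K] {n : ℕ}

/-- The normalization. -/
theorem exists_normalization {R : Subalgebra ℂ K} (hfg : R.FG)
    (hfrac : ∀ f : K, ∃ a b : K, a ∈ R ∧ b ∈ R ∧ b ≠ 0 ∧ f * b = a) :
    ∃ S : Subalgebra ℂ K, S.FG ∧ R ≤ S ∧ (∀ f : K, IsIntegral S f → f ∈ S) ∧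
      ∀ f ∈ S, IsIntegral R f := by
  obtain ⟨s, z, hzR, hz, hint⟩ := exists_noether' hfg hfrac
  have hfin := finiteDimensional_of_noether hfg hfrac hint
  have hic := adjoin_isIntegrallyClosed hz.1
  set A := Algebra.adjoin ℂ (Set.range z) with hA
  set E := IntermediateField.adjoin ℂ (Set.range z) with hE
  have hAfg : A.FG := Subalgebra.fg_def.2 ⟨_, Set.finite_range _, rfl⟩
  have hAft : Algebra.FiniteType ℂ A := (Subalgebra.fg_iff_finiteType _).1 hAfg
  have hAno : IsNoetherianRing A := Algebra.FiniteType.isNoetherianRing ℂ A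
  have hsep : Algebra.IsSeparable E K := inferInstance
  have hmf : Module.Finite A (integralClosure A K) :=
    IsIntegralClosure.finite A E K (integralClosure A K)
  have hft : Algebra.FiniteType ℂ (integralClosure A K) :=
    Algebra.FiniteType.trans hAft inferInstance
  refine ⟨(integralClosure A K).restrictScalars ℂ, (Subalgebra.fg_iff_finiteType _).2 hft,
    fun f hf => hint f hf, fun f hf => ?_, fun f hf => ?_⟩
  · have h1 : IsIntegral (integralClosure A K) f := hf
    exact isIntegral_trans (R := A) (A := integralClosure A K) f h1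
  · have hAR : A ≤ R := by
      rw [hA, Algebra.adjoin_le_iff]
      rintro _ ⟨k, rfl⟩
      exact hzR k
    have h1 : IsIntegral A f := hf
    obtain ⟨p, hp, hpe⟩ := h1
    refine ⟨p.map (Subalgebra.inclusion hAR).toRingHom, hp.map _, ?_⟩
    rw [Polynomial.eval₂_map]
    exact hpe

/-- A prime divisor over an affine variety with a given centre. -/
theorem exists_centre {R : Subalgebra ℂ K} (hfg : R.FG)
    (hfrac : ∀ f : K, ∃ a b : K, a ∈ R ∧ b ∈ R ∧ b ≠ 0 ∧ f * b = a) (P : R →ₐ[ℂ] ℂ)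
    {f₀ : R} (hf₀ : f₀ ≠ 0) (hPf₀ : P f₀ = 0) :
    ∃ v : DVal K, Divisorial v ∧ (∀ f ∈ R, v.Reg f) ∧ ∀ f : R, v.Pos (f : K) ↔ P f = 0 := by
  classical
  have hft : Algebra.FiniteType ℂ R := (Subalgebra.fg_iff_finiteType _).1 hfg
  have hno : IsNoetherianRing R := Algebra.FiniteType.isNoetherianRing ℂ R
  set M : Ideal R := RingHom.ker P with hM
  have hMtop : M ≠ ⊤ := RingHom.ker_ne_top P
  obtain ⟨s, hs⟩ : M.FG := IsNoetherian.noetherian M
  have hMsub : ∀ f ∈ s, P f = 0 := by
    intro f hf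
    have : f ∈ M := by rw [← hs]; exact Ideal.subset_span hf
    exact this
  let M' : Ideal R.toSubring := M
  obtain ⟨V, hRV, hMV⟩ := Ideal.image_subset_nonunits_valuationSubring (A := R.toSubring) M' hMtop
  have hRV' : ∀ f ∈ R, f ∈ V := fun f hf => hRV hf
  have hMV' : ∀ f : R, P f = 0 → (f : K) ∈ V.nonunits := fun f hf => hMV ⟨f, hf, rfl⟩
  have hne : s.Nonempty := by
    rw [Finset.nonempty_iff_ne_empty]
    rintro rfl
    rw [Finset.coe_empty, Ideal.span_empty] at hs
    have : f₀ ∈ M := hPf₀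
    rw [← hs] at this
    exact hf₀ this
  obtain ⟨g, hgs, hg⟩ := s.exists_max_image (fun f => V.valuation (f : K)) hne
  have hg0 : (g : K) ≠ 0 := by
    intro h0
    have h1 : ∀ f ∈ s, f = 0 := by
      intro f hf
      have h2 := hg f hf
      rw [h0, map_zero] at h2
      have h3 : V.valuation (f : K) = 0 := le_antisymm h2 zero_le
      rw [map_eq_zero] at h3
      exact Subtype.ext h3
    have h4 : M = ⊥ := by
      rw [← hs, Ideal.span_eq_bot]
      exact h1
    have : f₀ ∈ M := hPf₀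
    rw [h4] at this
    exact hf₀ this
  have hdiv : ∀ f ∈ s, (f : K) / g ∈ V := by
    intro f hf
    rw [← V.valuation_le_one_iff, map_div₀]
    exact div_le_one_of_le₀ (hg f hf) zero_le
  let S' : Subalgebra ℂ K := R ⊔ Algebra.adjoin ℂ ((fun f : R => (f : K) / g) '' s)
  have hRS' : R ≤ S' := le_sup_left
  have hS'fg : S'.FG := by
    refine hfg.sup (Subalgebra.fg_def.2 ⟨_, ?_, rfl⟩)
    exact (Finset.finite_toSet s).image _
  have hS'frac : ∀ f : K, ∃ a b : K, a ∈ S' ∧ b ∈ S' ∧ b ≠ 0 ∧ f * b = a := by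
    intro f
    obtain ⟨a, b, ha, hb, hb0, hab⟩ := hfrac f
    exact ⟨a, b, hRS' ha, hRS' hb, hb0, hab⟩
  have hS'V : ∀ f ∈ S', f ∈ V := by
    let VA : Subalgebra ℂ K :=
      { V.toSubring with
        algebraMap_mem' := fun r => hRV' _ (R.algebraMap_mem r) }
    have h1 : S' ≤ VA := by
      refine sup_le (fun f hf => hRV' f hf) ?_
      rw [Algebra.adjoin_le_iff]
      rintro _ ⟨f, hf, rfl⟩
      exact hdiv f hf
    exact fun f hf => h1 hf
  obtain ⟨S, hSfg, hS'S, hSn, hSint⟩ := exists_normalization hS'fg hS'frac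
  have hSV : ∀ f ∈ S, f ∈ V := fun f hf => mem_of_isIntegral' (hSint f hf) hS'V
  have hRS : R ≤ S := hRS'.trans hS'S
  have hSfrac : ∀ f : K, ∃ a b : K, a ∈ S ∧ b ∈ S ∧ b ≠ 0 ∧ f * b = a := by
    intro f
    obtain ⟨a, b, ha, hb, hb0, hab⟩ := hfrac f
    exact ⟨a, b, hRS ha, hRS hb, hb0, hab⟩
  have hSno : IsNoetherianRing S := by
    have : Algebra.FiniteType ℂ S := (Subalgebra.fg_iff_finiteType _).1 hSfg
    exact Algebra.FiniteType.isNoetherianRing ℂ S
  let g' : S := ⟨g, hRS g.2⟩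
  have hg'0 : g' ≠ 0 := fun h => hg0 (congrArg Subtype.val h)
  have hspan : Ideal.span {g'} ≠ ⊤ := by
    intro h
    rw [Ideal.span_singleton_eq_top] at h
    obtain ⟨u, hu⟩ := h.exists_right_inv
    have h1 : (g : K) * u = 1 := congrArg Subtype.val hu
    have h2 : (g : K) ∈ V.nonunits := hMV' g (hMsub g hgs)
    rw [ValuationSubring.mem_nonunits_iff] at h2
    have h3 : V.valuation (u : K) ≤ 1 := (V.valuation_le_one_iff _).2 (hSV _ u.2)
    have h4 := congrArg V.valuation h1
    rw [map_mul, map_one] at h4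
    have h5 : V.valuation (g : K) * V.valuation (u : K) < 1 := by
      calc V.valuation (g : K) * V.valuation (u : K) ≤ V.valuation (g : K) * 1 :=
            mul_le_mul_right h3 _
        _ < 1 := by rw [mul_one]; exact h2
    exact absurd h4 h5.ne
  obtain ⟨Q, hQ⟩ := Ideal.nonempty_minimalPrimes hspan
  have hQp : Q.IsPrime := hQ.1.1
  have hgQ : g' ∈ Q := hQ.1.2 (Ideal.mem_span_singleton_self _)
  have hQ0 : Q ≠ ⊥ := by
    rintro rfl
    exact hg'0 hgQ
  have hht : Q.height ≤ 1 :=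
    Ideal.height_le_one_of_isPrincipal_of_mem_minimalPrimes (Ideal.span {g'}) Q hQ
  have hht' : ∀ Q₁ : Ideal S, Q₁.IsPrime → Q₁ ≤ Q → Q₁ = ⊥ ∨ Q₁ = Q := by
    intro Q₁ hQ₁ hle
    by_cases heq : Q₁ = Q
    · exact Or.inr heq
    · left
      have h1 : Q₁ < Q := lt_of_le_of_ne hle heq
      have h2 := Ideal.height_add_one_le_of_lt_of_isPrime h1
      have h3 : Q₁.height + 1 ≤ 0 + 1 := by rw [zero_add]; exact h2.trans hht
      have h4 : Q₁.height ≤ 0 := by
        rwa [ENat.add_le_add_iff_right ENat.one_ne_top] at h3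
      exact Ideal.height_eq_zero_iff_eq_bot.1 (le_antisymm h4 zero_le)
  obtain ⟨w, hw, hw'⟩ := Pool.Agent.W497.Mld.exists_dval hSfg hSfrac hSn Q hQp hQ0 hht'
  refine ⟨w, ⟨S, hSfg, hw⟩, fun f hf => hw.1 f (hRS hf), fun f => ?_⟩
  have hMQ : ∀ f : R, P f = 0 → (⟨(f : K), hRS f.2⟩ : S) ∈ Q := by
    intro f hf
    have h1 : f ∈ Ideal.span (s : Set R) := by
      change f ∈ Submodule.span R (s : Set R)
      have h2 : f ∈ M := hf
      rw [← hs] at h2
      exact h2
    have h3 : Ideal.span (s : Set R) ≤ Q.comap (Subalgebra.inclusion hRS).toRingHom := by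
      rw [Ideal.span_le]
      intro x hx
      change (⟨(x : K), hRS x.2⟩ : S) ∈ Q
      have h4 : (⟨(x : K), hRS x.2⟩ : S) = ⟨(x : K) / g, hS'S (le_sup_right (a := R)
          (Algebra.subset_adjoin ⟨x, hx, rfl⟩))⟩ * g' := by
        apply Subtype.ext
        change (x : K) = x / g * g
        rw [div_mul_cancel₀ _ hg0]
      rw [h4]
      exact Q.mul_mem_left _ hgQ
    exact h3 h1
  have h1 := hw' ⟨(f : K), hRS f.2⟩
  change w.Pos (f : K) ↔ _ at h1
  rw [h1]
  constructor
  · intro hfQ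
    by_contra hPf
    have h2 : (⟨((f - algebraMap ℂ R (P f) : R) : K), hRS (f - algebraMap ℂ R (P f)).2⟩ : S) ∈ Q := by
      apply hMQ
      rw [map_sub, AlgHom.commutes]
      exact sub_self _
    have h3 : algebraMap ℂ S (P f) ∈ Q := by
      have h4 : algebraMap ℂ S (P f) = ⟨(f : K), hRS f.2⟩ -
          ⟨((f - algebraMap ℂ R (P f) : R) : K), hRS (f - algebraMap ℂ R (P f)).2⟩ := by
        apply Subtype.ext
        change algebraMap ℂ K (P f) = (f : K) - ((f : K) - algebraMap ℂ K (P f))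
        ring
      rw [h4]
      exact Q.sub_mem hfQ h2
    apply hQp.ne_top
    refine Q.eq_top_of_isUnit_mem h3 ?_
    exact (isUnit_iff_ne_zero.2 hPf).map (algebraMap ℂ S)
  · exact hMQ f

end Run7.h530
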