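import Mathlib
import Pool.Agent.Run7.h530.Center

/-!
# The local ring at a closed point
-/

set_option autoImplicit false

namespace Run7.h530

open Pool.Agent.H436R3.Fol

variable {K : Type} [Field K] [Algebra ℂ K] {n : ℕ}

/-- The coordinate ring of the open subset where `b` does not vanish. -/
def away (R : Subalgebra ℂ K) (b : K) : Subalgebra ℂ K := R ⊔ Algebra.adjoin ℂ {b⁻¹}

section away

variable {R : Subalgebra ℂ K} {b : K}

theorem away_fg (h : R.FG) : (away R b).FG :=
  h.sup (Subalgebra.fg_def.2 ⟨_, Set.finite_singleton _, rfl⟩)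

theorem le_away : R ≤ away R b := le_sup_left

theorem inv_mem_away : b⁻¹ ∈ away R b :=
  (le_sup_right : Algebra.adjoin ℂ {b⁻¹} ≤ away R b) (Algebra.subset_adjoin rfl)

theorem mem_away (hb : b ∈ R) (hb0 : b ≠ 0) {f : K} : f ∈ away R b ↔ ∃ e : ℕ, f * b ^ e ∈ R := by
  constructor
  · intro hf
    let T : Subalgebra ℂ K :=
      { carrier := {f | ∃ e : ℕ, f * b ^ e ∈ R}
        mul_mem' := by
          rintro f g ⟨e, he⟩ ⟨d, hd⟩
          refine ⟨e + d, ?_⟩
          have h1 : f * g * b ^ (e + d) = (f * b ^ e) * (g * b ^ d) := by rw [pow_add]; ring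
          rw [h1]
          exact R.mul_mem he hd
        add_mem' := by
          rintro f g ⟨e, he⟩ ⟨d, hd⟩
          refine ⟨e + d, ?_⟩
          have h1 : (f + g) * b ^ (e + d) = (f * b ^ e) * b ^ d + (g * b ^ d) * b ^ e := by
            rw [pow_add]; ring
          rw [h1]
          exact R.add_mem (R.mul_mem he (R.pow_mem hb _)) (R.mul_mem hd (R.pow_mem hb _))
        algebraMap_mem' := fun r => ⟨0, by rw [pow_zero, mul_one]; exact R.algebraMap_mem r⟩ }
    have hle : away R b ≤ T := by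
      refine sup_le (fun f hf => ⟨0, by rw [pow_zero, mul_one]; exact hf⟩) ?_
      rw [Algebra.adjoin_le_iff]
      rintro _ rfl
      refine ⟨1, ?_⟩
      rw [pow_one, inv_mul_cancel₀ hb0]
      exact R.one_mem
    exact hle hf
  · rintro ⟨e, he⟩
    have h1 : f = f * b ^ e * (b⁻¹) ^ e := by
      rw [mul_assoc, ← mul_pow, mul_inv_cancel₀ hb0, one_pow, mul_one]
    rw [h1]
    exact mul_mem (le_away he) (pow_mem inv_mem_away e)

theorem away_normal (hb : b ∈ R) (hb0 : b ≠ 0) (hn : ∀ f : K, IsIntegral R f → f ∈ R) :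
    ∀ f : K, IsIntegral (away R b) f → f ∈ away R b := by
  intro f hf
  obtain ⟨p, hp, hpe⟩ := hf
  choose e he using fun j : ℕ => (mem_away hb hb0).1 (p.coeff j).2
  set c := ∑ j ∈ Finset.range p.natDegree, e j with hc
  rw [mem_away hb hb0]
  refine ⟨c, hn _ ?_⟩
  set pK := p.map (algebraMap (away R b) K) with hpK
  have hmon : pK.Monic := hp.map _
  have hroot : pK.eval f = 0 := by
    rw [hpK, Polynomial.eval_map]
    exact hpe
  set q := pK.scaleRoots (b ^ c) with hq
  have hqmon : q.Monic := (Polynomial.monic_scaleRoots_iff _).2 hmon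
  have hqroot : q.eval (f * b ^ c) = 0 := by
    have h1 := Polynomial.scaleRoots_eval_mul pK f (b ^ c)
    rw [hroot, mul_zero, mul_comm] at h1
    exact h1
  have hdeg : pK.natDegree = p.natDegree := hp.natDegree_map _
  have hlift : q ∈ Polynomial.lifts (algebraMap R K) := by
    rw [Polynomial.lifts_iff_coeff_lifts]
    intro j
    have h1 : q.coeff j ∈ R := by
      rw [hq, Polynomial.coeff_scaleRoots]
      have h2 : pK.coeff j = (p.coeff j : K) := by
        rw [hpK, Polynomial.coeff_map]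
        rfl
      rcases lt_trichotomy j p.natDegree with h | h | h
      · have h3 : e j ≤ c :=
          Finset.single_le_sum (f := e) (fun _ _ => Nat.zero_le _) (Finset.mem_range.2 h)
        have h4 : e j ≤ c * (p.natDegree - j) := by
          have : 1 ≤ p.natDegree - j := by omega
          nlinarith
        rw [h2, hdeg, ← pow_mul, ← Nat.add_sub_cancel' h4, pow_add, ← mul_assoc]
        exact R.mul_mem (he j) (R.pow_mem hb _)
      · have h5 : pK.coeff j = 1 := by
          rw [h, ← hdeg]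
          exact hmon
        rw [h5, hdeg, h, Nat.sub_self, pow_zero, mul_one]
        exact R.one_mem
      · have h5 : pK.coeff j = 0 := Polynomial.coeff_eq_zero_of_natDegree_lt (by omega)
        rw [h5, zero_mul]
        exact R.zero_mem
    exact ⟨⟨_, h1⟩, rfl⟩
  obtain ⟨q', hq', -, hq'mon⟩ := Polynomial.lifts_and_natDegree_eq_and_monic hlift hqmon
  refine ⟨q', hq'mon, ?_⟩
  rw [← Polynomial.eval_map, hq', hqroot]

theorem of_away (hb : b ∈ R) (hb0 : b ≠ 0) {w : DVal K} (hw : IsLocalRing' (away R b) w) :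
    IsLocalRing' R w ∧ w.ord b = 0 := by
  have h0 : w.ord b = 0 := by
    have h1 := w.ord_nonneg hb0 (hw.1 b (le_away hb))
    have h2 := w.ord_nonneg (inv_ne_zero hb0) (hw.1 _ inv_mem_away)
    rw [w.ord_inv hb0] at h2
    omega
  refine ⟨⟨fun f hf => hw.1 f (le_away hf), fun f hf => ?_⟩, h0⟩
  obtain ⟨p, q, hp, hq, hq0, hq1, hpq⟩ := hw.2 f hf
  obtain ⟨e, he⟩ := (mem_away hb hb0).1 hp
  obtain ⟨d, hd⟩ := (mem_away hb hb0).1 hq
  refine ⟨(p * b ^ e) * b ^ d, (q * b ^ d) * b ^ e, R.mul_mem he (R.pow_mem hb _),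
    R.mul_mem hd (R.pow_mem hb _), ?_, ?_, ?_⟩
  · exact mul_ne_zero (mul_ne_zero hq0 (pow_ne_zero _ hb0)) (pow_ne_zero _ hb0)
  · rw [ord_mul (mul_ne_zero hq0 (pow_ne_zero _ hb0)) (pow_ne_zero _ hb0),
      ord_mul hq0 (pow_ne_zero _ hb0), w.ord_pow hb0, w.ord_pow hb0, h0, hq1]
    ring
  · rw [← hpq]
    ring

end away

namespace ProjVar

variable {X : ProjVar K} {i : Fin (X.N + 1)} (P : X.Pt i)

theorem chart_le_localRing : X.chart i ≤ X.localRing P := fun f hf =>
  ⟨⟨f, hf⟩, 1, by rw [map_one]; exact one_ne_zero, by simp⟩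

theorem away_le_localRing {b : X.chart i} (hb : P b ≠ 0) :
    away (X.chart i) (b : K) ≤ X.localRing P := by
  have hb0 : (b : K) ≠ 0 := by
    intro h
    apply hb
    have : b = 0 := Subtype.ext h
    rw [this, map_zero]
  refine sup_le (chart_le_localRing P) ?_
  rw [Algebra.adjoin_le_iff]
  rintro _ rfl
  exact ⟨1, b, hb, by rw [inv_mul_cancel₀ hb0]; rfl⟩

/-- A rational function without poles along the prime divisors near the point is regular at the
point. -/
theorem hartogs_local {b : X.chart i} (hb : P b ≠ 0) {F : K}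
    (h : ∀ w, X.On w → X.Meets i b w → w.Reg F) : F ∈ X.localRing P := by
  have hb0 : (b : K) ≠ 0 := by
    intro h
    apply hb
    have : b = 0 := Subtype.ext h
    rw [this, map_zero]
  apply away_le_localRing P hb
  refine Pool.Agent.W497.Mld.hartogs (away_fg (X.chart_fg i)) ?_
    (away_normal b.2 hb0 (X.normal i)) fun w hw => ?_
  · intro f
    obtain ⟨p, q, hp, hq, hq0, hpq⟩ := X.frac i f
    exact ⟨p, q, le_away hp, le_away hq, hq0, hpq⟩
  · obtain ⟨h1, h2⟩ := of_away b.2 hb0 hw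
    exact h w ⟨i, h1⟩ ⟨h1.1, hb0, h2⟩

theorem meets_of_centre {v : DVal K} (hv : X.Centre P v) {b : X.chart i} (hb : P b ≠ 0) :
    X.Meets i b v := by
  have hb0 : (b : K) ≠ 0 := by
    intro h
    apply hb
    have : b = 0 := Subtype.ext h
    rw [this, map_zero]
  refine ⟨hv.1, hb0, ?_⟩
  have h1 := v.ord_nonneg hb0 (hv.1 b b.2)
  have h2 : ¬ v.Pos (b : K) := fun h => hb ((hv.2 b).1 h)
  by_contra h3
  exact h2 (Or.inr (by omega))

theorem reg_of_centre {v : DVal K} (hv : X.Centre P v) (f : X.localRing P) : v.Reg (f : K) := by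
  obtain ⟨a, b, hb, hab⟩ := f.2
  obtain ⟨-, hb0, hb1⟩ := meets_of_centre P hv hb
  by_cases h0 : (f : K) = 0
  · exact Or.inl h0
  · right
    have ha0 : (a : K) ≠ 0 := by rw [← hab]; exact mul_ne_zero h0 hb0
    have h2 := v.ord_nonneg ha0 (hv.1 a a.2)
    rw [← hab, ord_mul h0 hb0, hb1] at h2
    omega

theorem pos_of_centre {v : DVal K} (hv : X.Centre P v) {f : X.localRing P} (hf : ¬ IsUnit f) :
    v.Pos (f : K) := by
  obtain ⟨a, b, hb, hab⟩ := f.2
  obtain ⟨-, hb0, hb1⟩ := meets_of_centre P hv hb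
  have hPa : P a = 0 := by
    by_contra hPa
    apply hf
    have ha0 : (a : K) ≠ 0 := by
      intro h
      apply hPa
      have : a = 0 := Subtype.ext h
      rw [this, map_zero]
    have h1 : (b : K) / a ∈ X.localRing P := ⟨b, a, hPa, div_mul_cancel₀ _ ha0⟩
    refine IsUnit.of_mul_eq_one ⟨(b : K) / a, h1⟩ ?_
    apply Subtype.ext
    change (f : K) * (b / a) = 1
    rw [← mul_div_assoc, hab, div_self ha0]
  by_cases h0 : (f : K) = 0
  · exact Or.inl h0
  · right
    have ha0 : (a : K) ≠ 0 := by rw [← hab]; exact mul_ne_zero h0 hb0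
    have h2 := ((hv.2 a).2 hPa).resolve_left ha0
    rw [← hab, ord_mul h0 hb0, hb1] at h2
    omega

theorem pos_of_mem {v : DVal K} (hv : X.Centre P v) {I : Ideal (X.localRing P)} (hI : I ≠ ⊤)
    {f : X.localRing P} (hf : f ∈ I) : v.Pos (f : K) :=
  pos_of_centre P hv fun h => hI (I.eq_top_of_isUnit_mem hf h)

/-- The ideal of the elements of order at least `m`. -/
def ordIdeal {v : DVal K} (hv : X.Centre P v) (m : ℤ) : Ideal (X.localRing P) where
  carrier := {f | (f : K) = 0 ∨ m ≤ v.ord (f : K)}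
  zero_mem' := Or.inl rfl
  add_mem' := by
    rintro f g hf hg
    by_cases hf0 : (f : K) = 0
    · have : f = 0 := Subtype.ext hf0
      rw [this, zero_add]; exact hg
    by_cases hg0 : (g : K) = 0
    · have : g = 0 := Subtype.ext hg0
      rw [this, add_zero]; exact hf
    by_cases h0 : (f : K) + g = 0
    · exact Or.inl h0
    right
    have h1 := hf.resolve_left hf0
    have h2 := hg.resolve_left hg0
    have h3 := v.map_add f g hf0 hg0 h0
    change m ≤ v.ord ((f : K) + g)
    rcases min_le_iff.1 h3 with h | h <;> omega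
  smul_mem' := by
    rintro c f hf
    change (c : K) * f = 0 ∨ m ≤ v.ord ((c : K) * f)
    by_cases hf0 : (f : K) = 0
    · left; rw [hf0, mul_zero]
    by_cases hc0 : (c : K) = 0
    · left; rw [hc0, zero_mul]
    right
    have h1 := hf.resolve_left hf0
    have h2 := v.ord_nonneg hc0 (reg_of_centre P hv c)
    rw [ord_mul hc0 hf0]
    omega

theorem mem_ordIdeal {v : DVal K} (hv : X.Centre P v) (m : ℤ) {f : X.localRing P} :
    f ∈ ordIdeal P hv m ↔ (f : K) = 0 ∨ m ≤ v.ord (f : K) := Iff.rfl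

theorem ordIdeal_mul {v : DVal K} (hv : X.Centre P v) (l m : ℤ) :
    ordIdeal P hv l * ordIdeal P hv m ≤ ordIdeal P hv (l + m) := by
  rw [Ideal.mul_le]
  intro f hf g hg
  rw [mem_ordIdeal] at hf hg ⊢
  change (f : K) * g = 0 ∨ l + m ≤ v.ord ((f : K) * g)
  by_cases hf0 : (f : K) = 0
  · left; rw [hf0, zero_mul]
  by_cases hg0 : (g : K) = 0
  · left; rw [hg0, mul_zero]
  right
  rw [ord_mul hf0 hg0]
  have := hf.resolve_left hf0
  have := hg.resolve_left hg0
  omega

theorem pow_le_ordIdeal {v : DVal K} (hv : X.Centre P v) {I : Ideal (X.localRing P)} {l : ℤ}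
    (hl : IsIdealOrd P v I l) (k : ℕ) : I ^ k ≤ ordIdeal P hv (k * l) := by
  have hI : I ≤ ordIdeal P hv l := by
    intro f hf
    rw [mem_ordIdeal]
    by_cases hf0 : (f : K) = 0
    · exact Or.inl hf0
    · exact Or.inr (hl.2 ⟨f, hf, fun h => hf0 (by rw [h]; rfl), rfl⟩)
  induction k with
  | zero =>
    intro f _
    rw [mem_ordIdeal]
    by_cases hf0 : (f : K) = 0
    · exact Or.inl hf0
    · right
      rw [Nat.cast_zero, zero_mul]
      exact v.ord_nonneg hf0 (reg_of_centre P hv f)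
  | succ k ih =>
    rw [pow_succ]
    have h1 : ((k + 1 : ℕ) : ℤ) * l = k * l + l := by push_cast; ring
    rw [h1]
    exact (Ideal.mul_mono ih hI).trans (ordIdeal_mul P hv _ _)

/-- A nonzero primary ideal has an order, and this is positive. -/
theorem exists_idealOrd {v : DVal K} (hv : X.Centre P v) {I : Ideal (X.localRing P)} (hI : I ≠ ⊤)
    {f : X.localRing P} (hf : f ∈ I) (hf0 : f ≠ 0) : ∃ l : ℤ, 1 ≤ l ∧ IsIdealOrd P v I l := by
  classical
  have hpos : ∀ m : ℤ, (∃ f ∈ I, f ≠ 0 ∧ v.ord (f : K) = m) → 1 ≤ m := by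
    rintro m ⟨g, hg, hg0, rfl⟩
    have h1 : (g : K) ≠ 0 := fun h => hg0 (Subtype.ext h)
    have := (pos_of_mem P hv hI hg).resolve_left h1
    omega
  obtain ⟨l, hl, hl'⟩ := Int.exists_least_of_bdd ⟨1, fun m hm => hpos m hm⟩
    ⟨_, f, hf, hf0, rfl⟩
  exact ⟨l, hpos l hl, hl, fun m hm => hl' m hm⟩

end ProjVar

end Run7.h530
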