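import Mathlib
import Pool.Agent.Run7.h530.Local

/-!
# Sections inject into the quotients of the local rings
-/

set_option autoImplicit false

namespace Run7.h530

open Pool.Agent.H436R3.Fol

variable {K : Type} [Field K] [Algebra ℂ K] {n : ℕ} {ω : Frame K n}

/-- The `ℚ`-Cartier divisor `N + t M`. -/
def QCartier.comb {X : ProjVar K} (N M : QCartier X) (t : ℚ) : QCartier X where
  c v := N.c v + t * M.c v
  loc := by
    intro i P
    obtain ⟨b, r, f, hb, hr, hf, h⟩ := N.loc i P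
    obtain ⟨d, s, g, hd, hs, hg, h'⟩ := M.loc i P
    refine ⟨b * d, r * s * t.den, f ^ ((s * t.den : ℕ) : ℤ) * g ^ ((r : ℤ) * t.num), ?_, ?_, ?_,
      fun v hv hm => ?_⟩
    · rw [map_mul]; exact mul_ne_zero hb hd
    · have := t.den_pos
      exact Nat.mul_pos (Nat.mul_pos hr hs) this
    · exact mul_ne_zero (zpow_ne_zero _ hf) (zpow_ne_zero _ hg)
    · obtain ⟨hreg, hbd0, hbd⟩ := hm
      have hb0 : (b : K) ≠ 0 := fun h0 => hbd0 (by
        change (b : K) * d = 0
        rw [h0, zero_mul])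
      have hd0 : (d : K) ≠ 0 := fun h0 => hbd0 (by
        change (b : K) * d = 0
        rw [h0, mul_zero])
      have h1 := v.ord_nonneg hb0 (hreg b b.2)
      have h2 := v.ord_nonneg hd0 (hreg d d.2)
      have h3 : v.ord ((b : K) * d) = 0 := hbd
      rw [ord_mul hb0 hd0] at h3
      have h4 := h v hv ⟨hreg, hb0, by omega⟩
      have h5 := h' v hv ⟨hreg, hd0, by omega⟩
      rw [ord_mul (zpow_ne_zero _ hf) (zpow_ne_zero _ hg), v.ord_zpow hf, v.ord_zpow hg]
      push_cast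
      rw [← h4, ← h5]
      have h6 : (t.num : ℚ) = t * t.den := (Rat.mul_den_eq_num t).symm
      rw [h6]
      ring

/-- The estimate on a nonnegative model. -/
theorem estimate {X : ProjVar K} {D : LogPair ω X} {N : QCartier X} {s C : ℚ} (hs : s ≤ C)
    (hC : ∀ (m : ℕ) (g : K), g ∈ X.sections (N.comb D.κ (-s)).c m → g ≠ 0 →
      ∀ (v : DVal K) (a : ℤ), Divisorial v → IsCanOrd ω v a →
        v.ord g + m * (N.comb D.κ (-s)).c v ≤ C * m * (1 + a - D.κ.c v))
    {X' : ProjVar K} {D' : LogPair ω X'} {N' : QCartier X'} (hD : IsNonneg D D')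
    (hN : IsNonnegDiv N N') (m : ℕ) (g : K) (hg : g ∈ X.sections (N.comb D.κ (-s)).c m)
    (hg0 : g ≠ 0) (v : DVal K) (a : ℤ) (hv : Divisorial v) (ha : IsCanOrd ω v a) :
    v.ord g + m * (N'.comb D'.κ (-s)).c v ≤ C * m * (1 + a - D'.κ.c v) := by
  have h1 := hC m g hg hg0 v a hv ha
  have h2 := hD.le v hv
  have h3 := hN.le v hv
  change v.ord g + m * (N.c v + -s * D.κ.c v) ≤ _ at h1
  change v.ord g + m * (N'.c v + -s * D'.κ.c v) ≤ _
  have hm : (0 : ℚ) ≤ m := Nat.cast_nonneg m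
  have h4 : s * (D.κ.c v - D'.κ.c v) ≤ C * (D.κ.c v - D'.κ.c v) :=
    mul_le_mul_of_nonneg_right hs (by linarith)
  have h5 : (m : ℚ) * (N'.c v + -s * D'.κ.c v) ≤
      m * (N.c v + -s * D.κ.c v) + m * (C * (D.κ.c v - D'.κ.c v)) := by
    rw [← mul_add]
    apply mul_le_mul_of_nonneg_left _ hm
    linarith
  have h6 : C * m * (1 + a - D'.κ.c v) =
      C * m * (1 + a - D.κ.c v) + m * (C * (D.κ.c v - D'.κ.c v)) := by ring
  linarith

theorem dimC_le {V W : Type} [AddCommGroup V] [Module ℂ V] [AddCommGroup W] [Module ℂ W]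
    (f : V →ₗ[ℂ] W) (hf : Function.Injective f) : dimC V ≤ dimC W := by
  unfold dimC
  exact OrderHomClass.mono Cardinal.toENat (LinearMap.rank_le_of_injective f hf)

/-- Multiplication by a suitable function injects the sections into the local ring, and the image
meets the powers of a primary ideal only in zero. -/
theorem count {X X' : ProjVar K} {D : LogPair ω X} {D' : LogPair ω X'} {N : QCartier X}
    {N' : QCartier X'} {t C : ℚ} (hD : IsNonneg D D') (hN : IsNonnegDiv N N')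
    (hC : ∀ (m : ℕ) (g : K), g ∈ X.sections (N.comb D.κ t).c m →
        g ≠ 0 → ∀ (v : DVal K) (a : ℤ), Divisorial v → IsCanOrd ω v a →
          v.ord g + m * (N'.comb D'.κ t).c v ≤ C * m * (1 + a - D'.κ.c v))
    {i : Fin (X'.N + 1)} (P : X'.Pt i) {v : DVal K} (hv : Divisorial v) (hvP : X'.Centre P v)
    {A : ℚ} (hA : D'.IsLogDisc v A) :
    ∃ c : ℚ, ∀ (I : Ideal (X'.localRing P)) (l : ℤ), IsIdealOrd P v I l → ∀ m k : ℕ,
      C * m * A + c < k * l →
        dimC (X.sections (N.comb D.κ t).c m) ≤ dimC (X'.localRing P ⧸ I ^ k) := by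
  obtain ⟨a, ha, rfl⟩ := hA
  set B' := N'.comb D'.κ t with hB'
  obtain ⟨b, r, f, hb, hr, hf, hloc⟩ := B'.loc i P
  obtain ⟨p, q, hp, hq, hq0, hpq⟩ := X'.frac i f
  have hp0 : p ≠ 0 := by rw [← hpq]; exact mul_ne_zero hf hq0
  have hr' : (1 : ℚ) ≤ r := by exact_mod_cast hr
  -- on the divisors of `X'` the two divisors agree
  have hagree : ∀ w, X'.On w → B'.c w = (N.comb D.κ t).c w := by
    intro w hw
    obtain ⟨e, he⟩ := exists_canOrd ω (X'.divisorial_of_on hw)
    have h1 := D'.eq w hw e he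
    have h2 := D.eq w (hD.on w hw) e he
    have h3 := hD.push w hw
    have h4 := hN.push w hw
    change N'.c w + t * D'.κ.c w = N.c w + t * D.κ.c w
    rw [h1, h2, h3, h4]
  set u : ℕ → K := fun m => f ^ (m / r) * (p * q) with hu
  have hu0 : ∀ m, u m ≠ 0 := fun m => mul_ne_zero (pow_ne_zero _ hf) (mul_ne_zero hp0 hq0)
  -- the order of `u m` along a divisor which meets the neighbourhood
  have hordu : ∀ m, ∀ w, Divisorial w → X'.Meets i b w →
      (w.ord (u m) : ℚ) = (m - (m % r : ℕ)) * B'.c w + w.ord p + w.ord q := by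
    intro m w hw hwm
    have h1 := hloc w hw hwm
    have h2 : w.ord (u m) = (m / r : ℕ) * w.ord f + (w.ord p + w.ord q) := by
      rw [hu, ord_mul (pow_ne_zero _ hf) (mul_ne_zero hp0 hq0), w.ord_pow hf, ord_mul hp0 hq0]
    have h3 : (m : ℚ) = (r : ℚ) * (m / r : ℕ) + (m % r : ℕ) := by
      exact_mod_cast (Nat.div_add_mod m r).symm
    have h4 : (m : ℚ) - (m % r : ℕ) = r * (m / r : ℕ) := by linarith
    rw [h2, h4]
    generalize m / r = d
    push_cast
    rw [← h1]
    ring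
  have hmem : ∀ (m : ℕ) (g : K), g ∈ X.sections (N.comb D.κ t).c m →
      g * u m ∈ X'.localRing P := by
    intro m g hg
    by_cases hg0 : g = 0
    · rw [hg0, zero_mul]; exact Subalgebra.zero_mem _
    refine ProjVar.hartogs_local P hb fun w hw hwm => ?_
    right
    have h1 := (hg.resolve_left hg0) w (hD.on w hw)
    rw [← hagree w hw] at h1
    have hdw := X'.divisorial_of_on hw
    have h2 := hordu m w hdw hwm
    have h3 := hloc w hdw hwm
    have h4 : w.ord p = w.ord f + w.ord q := by rw [← hpq, ord_mul hf hq0]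
    have h5 : (0 : ℚ) ≤ w.ord p := by exact_mod_cast w.ord_nonneg hp0 (hwm.1 p hp)
    have h6 : (0 : ℚ) ≤ w.ord q := by exact_mod_cast w.ord_nonneg hq0 (hwm.1 q hq)
    have h7 : (w.ord p : ℚ) = r * B'.c w + w.ord q := by rw [h3]; exact_mod_cast h4
    have h8 : ((m % r : ℕ) : ℚ) ≤ r := by exact_mod_cast (Nat.mod_lt m hr).le
    have h9 : (0 : ℚ) ≤ ((m % r : ℕ) : ℚ) := Nat.cast_nonneg _
    have h10 : ((m % r : ℕ) : ℚ) * B'.c w ≤ w.ord p + w.ord q := by
      rcases le_total (B'.c w) 0 with h | h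
      · have : ((m % r : ℕ) : ℚ) * B'.c w ≤ 0 := mul_nonpos_of_nonneg_of_nonpos h9 h
        linarith
      · have : ((m % r : ℕ) : ℚ) * B'.c w ≤ r * B'.c w := mul_le_mul_of_nonneg_right h8 h
        linarith
    have h11 : (0 : ℚ) ≤ (w.ord (g * u m) : ℚ) := by
      rw [ord_mul hg0 (hu0 m)]
      push_cast
      rw [h2]
      linarith
    exact_mod_cast h11
  refine ⟨r * |B'.c v| + v.ord p + v.ord q, fun I l hl m k hk => ?_⟩
  let φ : X.sections (N.comb D.κ t).c m →ₗ[ℂ] X'.localRing P :=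
    { toFun := fun g => ⟨g * u m, hmem m g g.2⟩
      map_add' := by
        intro x y
        apply Subtype.ext
        exact add_mul _ _ _
      map_smul' := by
        intro c x
        apply Subtype.ext
        exact smul_mul_assoc _ _ _ }
  let ψ : X.sections (N.comb D.κ t).c m →ₗ[ℂ] X'.localRing P ⧸ I ^ k :=
    (Ideal.Quotient.mkₐ ℂ (I ^ k)).toLinearMap.comp φ
  apply dimC_le ψ
  rw [injective_iff_map_eq_zero]
  intro g hg
  by_contra hne
  have hg0 : (g : K) ≠ 0 := fun h => hne (Subtype.ext h)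
  have h1 : (⟨g * u m, hmem m g g.2⟩ : X'.localRing P) ∈ I ^ k := Ideal.Quotient.eq_zero_iff_mem.1 hg
  have h2 := ProjVar.pow_le_ordIdeal P hvP hl k h1
  rw [ProjVar.mem_ordIdeal] at h2
  have h3 : (k : ℤ) * l ≤ v.ord ((g : K) * u m) := h2.resolve_left (mul_ne_zero hg0 (hu0 m))
  have h4 := hordu m v hv (ProjVar.meets_of_centre P hvP hb)
  have h5 := hC m g g.2 hg0 v a hv ha
  rw [ord_mul hg0 (hu0 m)] at h3
  have h6 : (k : ℚ) * l ≤ v.ord (g : K) + v.ord (u m) := by exact_mod_cast h3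
  have h8 : ((m % r : ℕ) : ℚ) ≤ r := by exact_mod_cast (Nat.mod_lt m hr).le
  have h9 : (0 : ℚ) ≤ ((m % r : ℕ) : ℚ) := Nat.cast_nonneg _
  have h10 : -(((m % r : ℕ) : ℚ) * B'.c v) ≤ r * |B'.c v| := by
    have h11 : -(((m % r : ℕ) : ℚ) * B'.c v) ≤ ((m % r : ℕ) : ℚ) * |B'.c v| := by
      have := neg_le_abs (B'.c v)
      nlinarith
    have h12 : ((m % r : ℕ) : ℚ) * |B'.c v| ≤ r * |B'.c v| :=
      mul_le_mul_of_nonneg_right h8 (abs_nonneg _)
    linarith
  rw [h4] at h6
  linarith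

end Run7.h530
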