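import Mathlib
import Pool.Agent.Run7.h530.Count

/-!
# Uniform lower bound for local volumes
-/

set_option autoImplicit false

namespace Run7.h530

open Pool.Agent.H436R3.Fol Filter Topology
open scoped ENNReal

/-- The comparison of two growth functions. -/
theorem limsup_compare {n : ℕ} {V W : ℕ → ℝ≥0∞} {y₀ y : ℝ} (hy₀ : 0 < y₀) (hy : y₀ < y)
    (h : ∀ᶠ m : ℕ in atTop, ∀ k : ℕ, y₀ * m ≤ k → V m ≤ W k) :
    limsup (fun m : ℕ => V m / (m : ℝ≥0∞) ^ n) atTop ≤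
      ENNReal.ofReal y ^ n * limsup (fun k : ℕ => W k / (k : ℝ≥0∞) ^ n) atTop := by
  have hy0 : 0 < y := hy₀.trans hy
  have hYt : ENNReal.ofReal y ≠ ⊤ := ENNReal.ofReal_ne_top
  have hY0 : ENNReal.ofReal y ≠ 0 := by
    rw [Ne, ENNReal.ofReal_eq_zero, not_le]
    exact hy0
  let k : ℕ → ℕ := fun m => ⌈y₀ * m⌉₊
  have hk : Tendsto k atTop atTop := by
    apply Tendsto.comp tendsto_nat_ceil_atTop
    exact (tendsto_natCast_atTop_atTop).const_mul_atTop hy₀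
  have h1 : ∀ᶠ m : ℕ in atTop, V m / (m : ℝ≥0∞) ^ n ≤
      ENNReal.ofReal y ^ n * (W (k m) / ((k m : ℕ) : ℝ≥0∞) ^ n) := by
    have h2 : ∀ᶠ m : ℕ in atTop, 1 / (y - y₀) ≤ (m : ℝ) :=
      tendsto_natCast_atTop_atTop.eventually_ge_atTop _
    filter_upwards [h, h2, eventually_ge_atTop 1, hk.eventually_ge_atTop 1] with m hm hm2 hm1 hk1
    have h3 : V m ≤ W (k m) := hm (k m) (Nat.le_ceil _)
    have h4 : ((k m : ℕ) : ℝ) ≤ y * m := by
      have h5 : ((k m : ℕ) : ℝ) < y₀ * m + 1 := Nat.ceil_lt_add_one (by positivity)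
      have h6 : 1 ≤ (y - y₀) * m := by
        rw [div_le_iff₀ (by linarith)] at hm2
        linarith
      linarith
    have h5 : ((k m : ℕ) : ℝ≥0∞) ≤ ENNReal.ofReal y * m := by
      rw [← ENNReal.ofReal_natCast (k m), ← ENNReal.ofReal_natCast m,
        ← ENNReal.ofReal_mul hy0.le]
      exact ENNReal.ofReal_le_ofReal h4
    have h6 : ((k m : ℕ) : ℝ≥0∞) ^ n ≤ ENNReal.ofReal y ^ n * (m : ℝ≥0∞) ^ n := by
      rw [← mul_pow]
      exact pow_le_pow_left' h5 n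
    have hm0 : (m : ℝ≥0∞) ^ n ≠ 0 := pow_ne_zero _ (Nat.cast_ne_zero.2 (by omega))
    have hmt : (m : ℝ≥0∞) ^ n ≠ ⊤ := ENNReal.pow_ne_top (ENNReal.natCast_ne_top m)
    have hYn0 : ENNReal.ofReal y ^ n ≠ 0 := pow_ne_zero _ hY0
    have hYnt : ENNReal.ofReal y ^ n ≠ ⊤ := ENNReal.pow_ne_top hYt
    have h7 : ((m : ℝ≥0∞) ^ n)⁻¹ ≤ ENNReal.ofReal y ^ n * (((k m : ℕ) : ℝ≥0∞) ^ n)⁻¹ := by
      have h8 := ENNReal.inv_le_inv.2 h6
      rw [ENNReal.mul_inv (Or.inl hYn0) (Or.inl hYnt)] at h8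
      calc ((m : ℝ≥0∞) ^ n)⁻¹ = ENNReal.ofReal y ^ n *
            ((ENNReal.ofReal y ^ n)⁻¹ * ((m : ℝ≥0∞) ^ n)⁻¹) := by
              rw [← mul_assoc, ENNReal.mul_inv_cancel hYn0 hYnt, one_mul]
        _ ≤ _ := mul_le_mul_right h8 _
    calc V m / (m : ℝ≥0∞) ^ n = V m * ((m : ℝ≥0∞) ^ n)⁻¹ := div_eq_mul_inv _ _
      _ ≤ W (k m) * (ENNReal.ofReal y ^ n * (((k m : ℕ) : ℝ≥0∞) ^ n)⁻¹) := mul_le_mul' h3 h7
      _ = _ := by rw [div_eq_mul_inv]; ring
  calc limsup (fun m : ℕ => V m / (m : ℝ≥0∞) ^ n) atTop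
      ≤ limsup (fun m : ℕ => ENNReal.ofReal y ^ n * (W (k m) / ((k m : ℕ) : ℝ≥0∞) ^ n)) atTop :=
        limsup_le_limsup h1
    _ = ENNReal.ofReal y ^ n * limsup (fun m : ℕ => W (k m) / ((k m : ℕ) : ℝ≥0∞) ^ n) atTop :=
        ENNReal.limsup_const_mul_of_ne_top (ENNReal.pow_ne_top hYt)
    _ ≤ _ := by
      apply mul_le_mul_right
      have h2 : limsup (fun m : ℕ => W (k m) / ((k m : ℕ) : ℝ≥0∞) ^ n) atTop =
          limsup (fun k : ℕ => W k / (k : ℝ≥0∞) ^ n) (map k atTop) := rfl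
      rw [h2]
      exact limsup_le_limsup_of_le hk

variable {K : Type} [Field K] [Algebra ℂ K] {n : ℕ} {ω : Frame K n}

/-- The volume is bounded by means of one prime divisor. -/
theorem vol_le_of_dval {X X' : ProjVar K} {B : DVal K → ℚ} {C : ℚ} (hC0 : 0 < C)
    {i : Fin (X'.N + 1)} (P : X'.Pt i) {I : Ideal (X'.localRing P)} {A c : ℚ} (hA : 0 < A) {l : ℤ}
    (hl : 1 ≤ l)
    (hc : ∀ m k : ℕ, C * m * A + c < k * l →
      dimC (X.sections B m) ≤ dimC (X'.localRing P ⧸ I ^ k))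
    {y : ℝ} (hy : ((C * A / l : ℚ) : ℝ) < y) :
    X.vol n B ≤ ENNReal.ofReal y ^ n * hilbertSamuel P n I := by
  have hl' : (1 : ℚ) ≤ l := by exact_mod_cast hl
  have hl0 : (0 : ℚ) < l := by linarith
  have hq : (0 : ℚ) < C * A / l := by positivity
  have hq' : (0 : ℝ) < ((C * A / l : ℚ) : ℝ) := by exact_mod_cast hq
  set y₀ : ℝ := (((C * A / l : ℚ) : ℝ) + y) / 2 with hy₀
  have h1 : ((C * A / l : ℚ) : ℝ) < y₀ := by rw [hy₀]; linarith
  have h2 : y₀ < y := by rw [hy₀]; linarith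
  have hlR : (0 : ℝ) < l := by exact_mod_cast hl0
  have h3 : (0 : ℝ) < y₀ * l - C * A := by
    have h4 : ((C * A / l : ℚ) : ℝ) * l = C * A := by
      push_cast
      field_simp
    have h5 := mul_lt_mul_of_pos_right h1 hlR
    rw [h4] at h5
    linarith
  refine limsup_compare (hq'.trans h1) h2 ?_
  have h4 : ∀ᶠ m : ℕ in atTop, (c : ℝ) / (y₀ * l - C * A) < (m : ℝ) :=
    tendsto_natCast_atTop_atTop.eventually_gt_atTop _
  filter_upwards [h4] with m hm k hk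
  rw [div_lt_iff₀ h3] at hm
  have h5 : (C * m * A + c : ℝ) < k * l := by
    have h6 := mul_le_mul_of_nonneg_right hk hlR.le
    nlinarith
  have h6 : C * m * A + c < k * l := by exact_mod_cast h5
  have h7 := hc m k h6
  exact mul_le_mul_right (ENat.toENNReal_le.2 h7) _

/-- The main estimate. -/
theorem vol_le {X X' : ProjVar K} {D : LogPair ω X} {D' : LogPair ω X'} {N : QCartier X}
    {N' : QCartier X'} {t C : ℚ} (h : D.IsKlt) (hD : IsNonneg D D') (hN : IsNonnegDiv N N')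
    (hC0 : 0 < C)
    (hC : ∀ (m : ℕ) (g : K), g ∈ X.sections (N.comb D.κ t).c m →
        g ≠ 0 → ∀ (v : DVal K) (a : ℤ), Divisorial v → IsCanOrd ω v a →
          v.ord g + m * (N'.comb D'.κ t).c v ≤ C * m * (1 + a - D'.κ.c v))
    (hn : 0 < n) {i : Fin (X'.N + 1)} (P : X'.Pt i) {I : Ideal (X'.localRing P)}
    (hI : IsPrimaryAt P I) :
    X.vol n (N.comb D.κ t).c ≤
      ENNReal.ofReal (C : ℝ) ^ n * (hilbertSamuel P n I * lct P D' I ^ n) := by
  have hCR : (0 : ℝ) < C := by exact_mod_cast hC0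
  have hCe0 : ENNReal.ofReal (C : ℝ) ≠ 0 := by
    rw [Ne, ENNReal.ofReal_eq_zero, not_le]
    exact hCR
  have hCet : ENNReal.ofReal (C : ℝ) ≠ ⊤ := ENNReal.ofReal_ne_top
  -- a nonzero element of the maximal ideal
  obtain ⟨z, hzS, hz, -⟩ := exists_noether ω (X'.chart_fg i) (X'.frac i)
  set f₀ : X'.chart i := ⟨z ⟨0, hn⟩, hzS _⟩ - algebraMap ℂ _ (P ⟨z ⟨0, hn⟩, hzS _⟩) with hf₀
  have hf₀0 : f₀ ≠ 0 := by
    intro h0
    have h1 : z ⟨0, hn⟩ = algebraMap ℂ K (P ⟨z ⟨0, hn⟩, hzS _⟩) :=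
      congrArg Subtype.val (sub_eq_zero.1 h0)
    have h2 : Transcendental ℂ (z ⟨0, hn⟩) := hz.1.transcendental _
    rw [h1] at h2
    exact h2 (isAlgebraic_algebraMap _)
  have hPf₀ : P f₀ = 0 := by
    rw [hf₀, map_sub, AlgHom.commutes]
    exact sub_self _
  obtain ⟨v₀, hv₀, hv₀1, hv₀2⟩ := exists_centre (X'.chart_fg i) (X'.frac i) P hf₀0 hPf₀
  have hv₀P : X'.Centre P v₀ := ⟨hv₀1, hv₀2⟩
  -- a nonzero element of `I`
  obtain ⟨F, hFI, hF0⟩ : ∃ F ∈ I, F ≠ 0 := by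
    let f₁ : X'.localRing P := ⟨f₀, ProjVar.chart_le_localRing P f₀.2⟩
    have hf₁0 : f₁ ≠ 0 := by
      intro h0
      have h1 : (f₁ : K) = 0 := by rw [h0]; rfl
      exact hf₀0 (Subtype.ext h1)
    have hf₁ : ¬ IsUnit f₁ := by
      intro hu
      obtain ⟨g, hg⟩ := hu.exists_right_inv
      have h1 : (f₀ : K) * g = 1 := congrArg Subtype.val hg
      have h2 : v₀.Pos (f₀ : K) := (hv₀2 f₀).2 hPf₀
      have h3 : (f₀ : K) ≠ 0 := fun h => hf₀0 (Subtype.ext h)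
      have h4 : (g : K) ≠ 0 := by
        intro h0
        rw [h0, mul_zero] at h1
        exact zero_ne_one h1
      have h5 := v₀.ord_nonneg h4 (ProjVar.reg_of_centre P hv₀P g)
      have h6 := h2.resolve_left h3
      have h7 := congrArg v₀.ord h1
      rw [ord_mul h3 h4, v₀.ord_one] at h7
      omega
    obtain ⟨k, hk⟩ := hI.2 f₁ hf₁
    exact ⟨f₁ ^ k, hk, pow_ne_zero _ hf₁0⟩
  have hFK : (F : K) ≠ 0 := fun h => hF0 (Subtype.ext h)
  -- log discrepancies are positive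
  have hpos : ∀ (v : DVal K), Divisorial v → ∀ A, D'.IsLogDisc v A → 0 < A := by
    rintro v hv A ⟨a, ha, rfl⟩
    have h1 := klt_pos h hv ⟨a, ha, rfl⟩
    have h2 := hD.le v hv
    linarith
  -- the estimate for one divisor
  have hone : ∀ (v : DVal K) (A : ℚ) (l : ℤ), Divisorial v → X'.Centre P v → D'.IsLogDisc v A →
      IsIdealOrd P v I l → 1 ≤ l ∧ ∀ y : ℝ, ((C * A / l : ℚ) : ℝ) < y →
        X.vol n (N.comb D.κ t).c ≤ ENNReal.ofReal y ^ n * hilbertSamuel P n I := by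
    intro v A l hv hvP hA hl
    obtain ⟨l', hl'1, hl'⟩ := ProjVar.exists_idealOrd P hvP hI.1 hFI hF0
    have hll : l = l' := hl.unique hl'
    obtain ⟨c, hc⟩ := count hD hN hC P hv hvP hA
    refine ⟨hll ▸ hl'1, fun y hy => ?_⟩
    exact vol_le_of_dval hC0 P (hpos v hv A hA) (hll ▸ hl'1) (fun m k hmk => hc I l hl m k hmk) hy
  set T : Set ℝ≥0∞ := {t : ℝ≥0∞ | ∃ (v : DVal K) (A : ℚ) (l : ℤ), Divisorial v ∧ X'.Centre P v ∧
    D'.IsLogDisc v A ∧ IsIdealOrd P v I l ∧ t = ENNReal.ofReal (A / l : ℚ)} with hT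
  have hlct : lct P D' I = sInf T := rfl
  set x := lct P D' I with hx
  set e := hilbertSamuel P n I with he
  -- the log canonical threshold is finite
  have hxt : x ≠ ⊤ := by
    obtain ⟨a, ha⟩ := exists_canOrd ω hv₀
    obtain ⟨l, hl1, hl⟩ := ProjVar.exists_idealOrd P hv₀P hI.1 hFI hF0
    have h1 : x ≤ ENNReal.ofReal (((1 + a - D'.κ.c v₀) / l : ℚ) : ℝ) := by
      rw [hlct]
      exact sInf_le ⟨v₀, _, l, hv₀, hv₀P, ⟨a, ha, rfl⟩, hl, rfl⟩
    exact ne_top_of_le_ne_top ENNReal.ofReal_ne_top h1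
  -- the log canonical threshold is positive
  have hx0 : x ≠ 0 := by
    obtain ⟨c, hc0, hc⟩ := klt_bound h (F : K) hFK
    have h1 : ENNReal.ofReal (((1 / (c + 1) : ℚ)) : ℝ) ≤ x := by
      rw [hlct]
      apply le_sInf
      rintro _ ⟨v, A, l, hv, hvP, hA, hl, rfl⟩
      apply ENNReal.ofReal_le_ofReal
      have hl1 := (hone v A l hv hvP hA hl).1
      have hApos := hpos v hv A hA
      obtain ⟨a, ha, rfl⟩ := hA
      have h2 : l ≤ v.ord (F : K) := hl.2 ⟨F, hFI, hF0, rfl⟩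
      have h3 := (hc v a hv ha).1
      have h4 := hD.le v hv
      have h5 : (l : ℚ) ≤ v.ord (F : K) := by exact_mod_cast h2
      have h6 : (1 : ℚ) ≤ l := by exact_mod_cast hl1
      have h7 : (1 / (c + 1) : ℚ) ≤ (1 + a - D'.κ.c v) / l := by
        rw [div_le_div_iff₀ (by linarith) (by linarith)]
        nlinarith
      exact_mod_cast h7
    have h2 : 0 < ENNReal.ofReal (((1 / (c + 1) : ℚ)) : ℝ) := by
      rw [ENNReal.ofReal_pos]
      have : (0 : ℚ) < 1 / (c + 1) := by positivity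
      exact_mod_cast this
    exact (h2.trans_le h1).ne'
  have hgoal : ENNReal.ofReal (C : ℝ) ^ n * (e * x ^ n) = (ENNReal.ofReal (C : ℝ) * x) ^ n * e := by
    rw [mul_pow]
    ring
  rw [hgoal]
  by_cases het : e = ⊤
  · rw [het, ENNReal.mul_top (pow_ne_zero _ (mul_ne_zero hCe0 hx0))]
    exact le_top
  set w := ENNReal.ofReal (C : ℝ) * x with hw
  have hwt : w ≠ ⊤ := ENNReal.mul_ne_top hCet hxt
  have hstep : ∀ s : ℝ≥0∞, w < s → s ≠ ⊤ → X.vol n (N.comb D.κ t).c ≤ s ^ n * e := by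
    intro s hs hst
    have h1 : sInf T < s / ENNReal.ofReal (C : ℝ) := by
      rw [← hlct, ENNReal.lt_div_iff_mul_lt (Or.inl hCe0) (Or.inl hCet), mul_comm]
      exact hs
    obtain ⟨τ, ⟨v, A, l, hv, hvP, hA, hl, rfl⟩, hτ⟩ := sInf_lt_iff.1 h1
    obtain ⟨hl1, h2⟩ := hone v A l hv hvP hA hl
    have hApos := hpos v hv A hA
    have h3 : ((C * A / l : ℚ) : ℝ) < s.toReal := by
      rw [ENNReal.lt_div_iff_mul_lt (Or.inl hCe0) (Or.inl hCet), ← ENNReal.ofReal_mul,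
        ← ENNReal.ofReal_toReal hst] at hτ
      · have h4 := (ENNReal.ofReal_lt_ofReal_iff_of_nonneg (by
          have h5 : (1 : ℚ) ≤ l := by exact_mod_cast hl1
          have h6 : (0 : ℚ) ≤ A / l * C := by
            apply mul_nonneg (div_nonneg hApos.le (by linarith)) hC0.le
          exact_mod_cast h6)).1 hτ
        have h7 : ((C * A / l : ℚ) : ℝ) = ((A / l : ℚ) : ℝ) * C := by
          push_cast
          ring
        rw [h7]
        exact h4
      · have h5 : (1 : ℚ) ≤ l := by exact_mod_cast hl1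
        have h6 : (0 : ℚ) ≤ A / l := div_nonneg hApos.le (by linarith)
        exact_mod_cast h6
    have h4 := h2 _ h3
    rwa [ENNReal.ofReal_toReal hst] at h4
  have hcont : Continuous fun s : ℝ≥0∞ => s ^ n * e :=
    (ENNReal.continuous_mul_const het).comp (ENNReal.continuous_pow n)
  have hten : Tendsto (fun s : ℝ≥0∞ => s ^ n * e) (𝓝[>] w) (𝓝 (w ^ n * e)) :=
    (hcont.tendsto w).mono_left nhdsWithin_le_nhds
  have hwlt : w < ⊤ := lt_top_iff_ne_top.2 hwt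
  have hneb : (𝓝[>] w).NeBot := nhdsGT_neBot_of_exists_gt ⟨⊤, hwlt⟩
  refine ge_of_tendsto hten ?_
  have h1 : ∀ᶠ s in 𝓝[>] w, s < ⊤ := nhdsWithin_le_nhds (Iio_mem_nhds hwlt)
  filter_upwards [h1, self_mem_nhdsWithin] with s hs1 hs2
  exact hstep s hs2 hs1.ne

/-- The estimate in dimension zero. -/
theorem one_le_of_zero {X' : ProjVar K} {D' : LogPair ω X'} (hn : n = 0)
    {i : Fin (X'.N + 1)} (P : X'.Pt i) : 1 ≤ normalizedVolume P D' := by
  subst hn
  refine le_iInf fun I => le_iInf fun hI => ?_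
  rw [pow_zero, mul_one]
  unfold hilbertSamuel
  have h1 : ∀ᶠ k : ℕ in atTop, (1 : ℝ≥0∞) ≤ ((0 : ℕ).factorial : ℝ≥0∞) *
      (dimC (X'.localRing P ⧸ I ^ k) : ℝ≥0∞) / (k : ℝ≥0∞) ^ 0 := by
    filter_upwards [eventually_ge_atTop 1] with k hk
    rw [Nat.factorial_zero, Nat.cast_one, one_mul, pow_zero, div_one]
    have h2 : I ^ k ≠ ⊤ := by
      intro h
      apply hI.1
      rw [eq_top_iff, ← h]
      exact Ideal.pow_le_self (by omega)
    have h3 : Nontrivial (X'.localRing P ⧸ I ^ k) := Ideal.Quotient.nontrivial_iff.2 h2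
    have h4 : (1 : ℕ∞) ≤ dimC (X'.localRing P ⧸ I ^ k) := by
      unfold dimC
      have h5 : (1 : Cardinal) ≤ Module.rank ℂ (X'.localRing P ⧸ I ^ k) := by
        rw [Cardinal.one_le_iff_pos]
        exact rank_pos
      have h6 := OrderHomClass.mono Cardinal.toENat h5
      rwa [map_one] at h6
    have h7 := ENat.toENNReal_le.2 h4
    rwa [ENat.toENNReal_one] at h7
  calc (1 : ℝ≥0∞) = limsup (fun _ : ℕ => (1 : ℝ≥0∞)) atTop := by simp
    _ ≤ _ := limsup_le_limsup h1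

/-- The volume in dimension zero. -/
theorem vol_le_one_of_zero (ω : Frame K n) (hn : n = 0) (X : ProjVar K) (B : DVal K → ℚ) :
    X.vol n B ≤ 1 := by
  subst hn
  obtain ⟨z, -, hz, -⟩ := exists_noether ω (X.chart_fg 0) (X.frac 0)
  have h1 : Algebra.IsAlgebraic ℂ K := hz.isEmpty_iff_isAlgebraic.1 inferInstance
  have h2 : Algebra.IsIntegral ℂ K := Algebra.isAlgebraic_iff_isIntegral.1 h1
  have h3 : Function.Surjective (Algebra.linearMap ℂ K) :=
    (IsAlgClosed.algebraMap_bijective_of_isIntegral (k := ℂ) (K := K)).2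
  have h4 : ∀ m, (dimC (X.sections B m) : ℝ≥0∞) ≤ 1 := by
    intro m
    have h5 : Module.rank ℂ (X.sections B m) ≤ 1 := by
      refine (Submodule.rank_le _).trans ?_
      exact (LinearMap.rank_le_of_surjective _ h3).trans_eq (Module.rank_self ℂ)
    have h6 : dimC (X.sections B m) ≤ 1 := by
      unfold dimC
      have h7 := OrderHomClass.mono Cardinal.toENat h5
      rwa [map_one] at h7
    have h7 := ENat.toENNReal_le.2 h6
    rwa [ENat.toENNReal_one] at h7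
  unfold ProjVar.vol
  calc _ ≤ limsup (fun _ : ℕ => (1 : ℝ≥0∞)) atTop := by
        refine limsup_le_limsup (Eventually.of_forall fun m => ?_)
        change ((0 : ℕ).factorial : ℝ≥0∞) * (dimC (X.sections B m) : ℝ≥0∞) / (m : ℝ≥0∞) ^ 0 ≤ 1
        rw [Nat.factorial_zero, Nat.cast_one, one_mul, pow_zero, div_one]
        exact h4 m
    _ = 1 := by simp

/-- The alpha invariant bounds the orders of the sections. -/
theorem bound_of_lt_alpha {X : ProjVar K} {D : LogPair ω X} (h : D.IsKlt) (B : QCartier X) {q : ℚ}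
    (hq : 0 < q) (hqa : ENNReal.ofReal (q : ℝ) < alpha D B.c) (m : ℕ) (g : K)
    (hg : g ∈ X.sections B.c m) (hg0 : g ≠ 0) (v : DVal K) (a : ℤ) (hv : Divisorial v)
    (ha : IsCanOrd ω v a) : v.ord g + m * B.c v ≤ q⁻¹ * m * (1 + a - D.κ.c v) := by
  have hA : 0 < 1 + (a : ℚ) - D.κ.c v := klt_pos h hv ⟨a, ha, rfl⟩
  have hR : 0 ≤ q⁻¹ * m * (1 + a - D.κ.c v) := by positivity
  rcases le_or_gt ((v.ord g : ℚ) + m * B.c v) 0 with h0 | h0
  · exact h0.trans hR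
  rcases Nat.eq_zero_or_pos m with hm | hm
  · exfalso
    subst hm
    obtain ⟨C, -, hC⟩ := exists_alpha h B
    have h1 := hC 0 g hg hg0 v a hv ha
    simp only [Nat.cast_zero, mul_zero, zero_mul, add_zero] at h0 h1
    exact absurd h0 (not_lt.2 h1)
  have h1 : alpha D B.c ≤ ENNReal.ofReal
      ((m * (1 + a - D.κ.c v) / (v.ord g + m * B.c v) : ℚ) : ℝ) :=
    sInf_le ⟨m, g, v, _, hm, hg, hg0, hv, ⟨a, ha, rfl⟩, h0, rfl⟩
  have h2 := hqa.trans_le h1
  rw [ENNReal.ofReal_lt_ofReal_iff_of_nonneg (by exact_mod_cast hq.le)] at h2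
  have h3 : q < m * (1 + a - D.κ.c v) / (v.ord g + m * B.c v) := by exact_mod_cast h2
  rw [lt_div_iff₀ h0] at h3
  rw [mul_assoc, ← div_eq_inv_mul, le_div_iff₀ hq, mul_comm]
  exact h3.le

/-- The alpha invariant of a `ℚ`-Cartier divisor on a klt pair is positive. -/
theorem alpha_pos {X : ProjVar K} {D : LogPair ω X} (h : D.IsKlt) (B : QCartier X) :
    0 < alpha D B.c := by
  obtain ⟨C, hC0, hC⟩ := exists_alpha h B
  have h1 : ENNReal.ofReal ((1 / (C + 1) : ℚ) : ℝ) ≤ alpha D B.c := by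
    apply le_sInf
    rintro _ ⟨m, g, v, A, hm, hg, hg0, hv, ⟨a, ha, rfl⟩, h0, rfl⟩
    apply ENNReal.ofReal_le_ofReal
    have h2 := hC m g hg hg0 v a hv ha
    have hA : 0 < 1 + (a : ℚ) - D.κ.c v := klt_pos h hv ⟨a, ha, rfl⟩
    have hm' : (1 : ℚ) ≤ m := by exact_mod_cast hm
    have h3 : (1 / (C + 1) : ℚ) ≤ m * (1 + a - D.κ.c v) / (v.ord g + m * B.c v) := by
      rw [div_le_div_iff₀ (by linarith) h0]
      have h4 : 0 < m * (1 + (a : ℚ) - D.κ.c v) := by positivity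
      nlinarith
    exact_mod_cast h3
  refine lt_of_lt_of_le ?_ h1
  rw [ENNReal.ofReal_pos]
  have : (0 : ℚ) < 1 / (C + 1) := by positivity
  exact_mod_cast this

/-- Passage to the supremum. -/
theorem sup_le {n : ℕ} {x V W : ℝ≥0∞} (hx : 0 < x)
    (h : ∀ q : ℚ, 0 < q → ENNReal.ofReal (q : ℝ) < x → ENNReal.ofReal (q : ℝ) ^ n * V ≤ W) :
    x ^ n * V ≤ W := by
  have hex : ∀ y < x, ∃ q : ℚ, 0 < q ∧ y < ENNReal.ofReal (q : ℝ) ∧ ENNReal.ofReal (q : ℝ) < x := by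
    intro y hy
    obtain ⟨q, hq0, hq1, hq2⟩ := ENNReal.lt_iff_exists_rat_btwn.1 hy
    refine ⟨q, ?_, hq1, hq2⟩
    have h1 : 0 < ENNReal.ofReal (q : ℝ) := lt_of_le_of_lt zero_le hq1
    rw [ENNReal.ofReal_pos] at h1
    exact_mod_cast h1
  by_cases hV : V = ⊤
  · obtain ⟨q, hq, h1, h2⟩ := hex 0 hx
    have h3 := h q hq h2
    rw [hV, ENNReal.mul_top (pow_ne_zero _ h1.ne')] at h3
    exact le_top.trans h3
  have hcont : Continuous fun y : ℝ≥0∞ => y ^ n * V :=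
    (ENNReal.continuous_mul_const hV).comp (ENNReal.continuous_pow n)
  have hten : Tendsto (fun y : ℝ≥0∞ => y ^ n * V) (𝓝[<] x) (𝓝 (x ^ n * V)) :=
    (hcont.tendsto x).mono_left nhdsWithin_le_nhds
  have hneb : (𝓝[<] x).NeBot := nhdsLT_neBot_of_exists_lt ⟨0, hx⟩
  refine le_of_tendsto hten ?_
  filter_upwards [self_mem_nhdsWithin] with y hy
  obtain ⟨q, hq, h1, h2⟩ := hex y hy
  exact (mul_le_mul_left (pow_le_pow_left' h1.le n) V).trans (h q hq h2)

/-- The local volumes of all nonnegative models are bounded below. -/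
theorem main {X : ProjVar K} {D : LogPair ω X} (h : D.IsKlt) (N : QCartier X) (s : ℚ)
    (hbig : X.IsBig n (fun v => N.c v - s * D.κ.c v)) :
    0 < min (alpha D (fun v => N.c v - s * D.κ.c v)) (ENNReal.ofReal (s : ℝ))⁻¹ ^ n *
        X.vol n (fun v => N.c v - s * D.κ.c v) ∧
    ∀ (X' : ProjVar K) (D' : LogPair ω X') (N' : QCartier X'),
      IsNonneg D D' → IsNonnegDiv N N' → ∀ (i : Fin (X'.N + 1)) (P : X'.Pt i),
        min (alpha D (fun v => N.c v - s * D.κ.c v)) (ENNReal.ofReal (s : ℝ))⁻¹ ^ n *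
          X.vol n (fun v => N.c v - s * D.κ.c v) ≤ normalizedVolume P D' := by
  have hfun : (fun v => N.c v - s * D.κ.c v) = (N.comb D.κ (-s)).c := by
    funext v
    change N.c v - s * D.κ.c v = N.c v + -s * D.κ.c v
    ring
  rw [hfun] at hbig ⊢
  set x := min (alpha D (N.comb D.κ (-s)).c) (ENNReal.ofReal (s : ℝ))⁻¹ with hx
  have hx0 : 0 < x := by
    rw [hx, lt_min_iff]
    refine ⟨alpha_pos h _, ?_⟩
    rw [ENNReal.inv_pos]
    exact ENNReal.ofReal_ne_top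
  refine ⟨ENNReal.mul_pos (pow_ne_zero _ hx0.ne') hbig.ne', fun X' D' N' hD hN i P => ?_⟩
  rcases Nat.eq_zero_or_pos n with h0 | h0
  · have h1 : x ^ n = 1 := by rw [h0, pow_zero]
    rw [h1, one_mul]
    exact (vol_le_one_of_zero ω h0 X _).trans (one_le_of_zero h0 P)
  refine sup_le hx0 fun q hq hqx => ?_
  rw [hx, lt_min_iff] at hqx
  have hqR : (0 : ℝ) < q := by exact_mod_cast hq
  have hsq : s ≤ q⁻¹ := by
    rcases le_or_gt s 0 with hs | hs
    · exact hs.trans (inv_nonneg.2 hq.le)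
    have hsR : (0 : ℝ) < s := by exact_mod_cast hs
    have h1 := hqx.2
    rw [← ENNReal.ofReal_inv_of_pos hsR, ENNReal.ofReal_lt_ofReal_iff_of_nonneg hqR.le] at h1
    have h2 : q < s⁻¹ := by exact_mod_cast h1
    rw [le_inv_comm₀ hs hq]
    exact h2.le
  refine le_iInf fun I => le_iInf fun hI => ?_
  have h1 := vol_le (C := q⁻¹) h hD hN (inv_pos.2 hq)
    (fun m g hg hg0 v a hv ha => estimate hsq (bound_of_lt_alpha h _ hq hqx.1) hD hN m g hg hg0 v a
      hv ha) h0 P hI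
  have hq0 : ENNReal.ofReal (q : ℝ) ^ n ≠ 0 := by
    apply pow_ne_zero
    rw [Ne, ENNReal.ofReal_eq_zero, not_le]
    exact hqR
  have hqt : ENNReal.ofReal (q : ℝ) ^ n ≠ ⊤ := ENNReal.pow_ne_top ENNReal.ofReal_ne_top
  have h2 : ENNReal.ofReal ((q⁻¹ : ℚ) : ℝ) ^ n = (ENNReal.ofReal (q : ℝ) ^ n)⁻¹ := by
    rw [ENNReal.inv_pow, ← ENNReal.ofReal_inv_of_pos hqR]
    push_cast
    rfl
  rw [h2] at h1
  calc ENNReal.ofReal (q : ℝ) ^ n * X.vol n (N.comb D.κ (-s)).c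
      ≤ ENNReal.ofReal (q : ℝ) ^ n * ((ENNReal.ofReal (q : ℝ) ^ n)⁻¹ *
          (hilbertSamuel P n I * lct P D' I ^ n)) := mul_le_mul_right h1 _
    _ = _ := by rw [← mul_assoc, ENNReal.mul_inv_cancel hq0 hqt, one_mul]

end Run7.h530
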